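import Pool.Agent.Helper26.MQ.Idx

/-!
# Maps with an arbitrary degree vector whose maximum is attained once: definitions

The last variable is the one of the largest degree.
-/

set_option autoImplicit false

namespace Pool.Agent.Helper26.DV

open MvPolynomial Pool.Agent.Helper86.MQ

/-- the instance for the exponents -/
noncomputable instance instFintypeVExp (m : ℕ) (w : Fin (m + 1) → ℕ) (i : Fin (m + 1)) :
    Fintype {s : Fin (m + 1) →₀ ℕ // s.degree ≤ w i} :=
  Pool.Agent.Helper26.MQ.instFintypeExp m (w i)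

/-- the coefficients of a map whose `i`-th component has degree at most `w i` -/
abbrev VIdx (m : ℕ) (w : Fin (m + 1) → ℕ) : Type :=
  (i : Fin (m + 1)) × {s : Fin (m + 1) →₀ ℕ // s.degree ≤ w i}

/-- the special coefficient: the one of `x_N ^ w_N` in the last component -/
noncomputable def vsp (m : ℕ) (w : Fin (m + 1) → ℕ) : VIdx m w :=
  ⟨Fin.last m, ⟨Finsupp.single (Fin.last m) (w (Fin.last m)), by
    rw [Finsupp.degree_single]⟩⟩

section

variable {R : Type*} [CommRing R] {m : ℕ} {w : Fin (m + 1) → ℕ}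

/-- the polynomials with coefficient array `c` -/
noncomputable def vP (c : VIdx m w → R) (i : Fin (m + 1)) : MvPolynomial (Fin (m + 1)) R :=
  ∑ s : {s : Fin (m + 1) →₀ ℕ // s.degree ≤ w i},
    monomial (s : Fin (m + 1) →₀ ℕ) (c ⟨i, s⟩)

/-- the forms of degree `w i` -/
noncomputable def vF (c : VIdx m w → R) (i : Fin (m + 1)) : MvPolynomial (Fin (m + 1)) R :=
  homogeneousComponent (w i) (vP c i)

theorem coeff_vP (c : VIdx m w → R) (i : Fin (m + 1))
    (s : {s : Fin (m + 1) →₀ ℕ // s.degree ≤ w i}) :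
    coeff (s : Fin (m + 1) →₀ ℕ) (vP c i) = c ⟨i, s⟩ := by
  classical
  rw [vP, coeff_sum]
  simp only [coeff_monomial]
  rw [Finset.sum_eq_single s]
  · simp
  · intro b _ hb
    rw [if_neg]
    exact fun h => hb (Subtype.ext h)
  · simp

theorem coeff_vP_of_gt (c : VIdx m w → R) (i : Fin (m + 1))
    {s : Fin (m + 1) →₀ ℕ} (hs : ¬ s.degree ≤ w i) : coeff s (vP c i) = 0 := by
  classical
  rw [vP, coeff_sum]
  refine Finset.sum_eq_zero fun b _ => ?_
  rw [coeff_monomial, if_neg]
  rintro rfl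
  exact hs b.2

/-- Maps with the bounds of the degrees are given by arrays. -/
theorem vP_coeff (P : Fin (m + 1) → MvPolynomial (Fin (m + 1)) R)
    (hP : ∀ i (s : Fin (m + 1) →₀ ℕ), ¬ s.degree ≤ w i → coeff s (P i) = 0) :
    vP (fun k : VIdx m w => coeff (k.2 : Fin (m + 1) →₀ ℕ) (P k.1)) = P := by
  funext i
  ext s
  by_cases hs : s.degree ≤ w i
  · exact coeff_vP (fun k : VIdx m w => coeff (k.2 : Fin (m + 1) →₀ ℕ) (P k.1)) i ⟨s, hs⟩
  · rw [coeff_vP_of_gt _ _ hs, hP i s hs]

/-- no orbit stays in the hyperplane `x_N = 0` -/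
def V1 (c : VIdx m w → R) : Prop :=
  ∀ x : Fin (m + 1) → R, x (Fin.last m) = 0 → ∃ k, (pm (vP c))^[k] x (Fin.last m) ≠ 0

/-- the points of the hyperplane `x_N = 0` whose coordinates of degree smaller than `E` vanish -/
def InV (w : Fin (m + 1) → ℕ) (E : ℕ) (x : Fin (m + 1) → R) : Prop :=
  x (Fin.last m) = 0 ∧ ∀ i : Fin m, w i.castSucc < E → x i.castSucc = 0

/-- one step at the level `E` -/
def Rel (c : VIdx m w → R) (E : ℕ) (x x' : Fin (m + 1) → R) : Prop :=
  InV w E x ∧ InV w E x' ∧
    (∀ i : Fin m, E < w i.castSucc → eval x (vF c i.castSucc) = 0) ∧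
    eval x (vF c (Fin.last m)) = 0 ∧
    ∀ i : Fin m, w i.castSucc = E → x' i.castSucc = eval x (vF c i.castSucc)

/-- there are no chains of nonzero points on any level -/
def V2 (c : VIdx m w → R) : Prop :=
  ∀ (E : ℕ) (x : ℕ → Fin (m + 1) → R), (∀ n, Rel c E (x n) (x (n + 1))) → x 0 = 0

end

section

variable {p : ℕ} [Fact p.Prime] {m : ℕ}

/-- The bounds of the degrees; all coefficients are `p`-integral, except for the coefficient of
`x_N ^ w_N` in the last component, which has valuation `-1`. -/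
structure VPre (p : ℕ) [Fact p.Prime] (m : ℕ) (w : Fin (m + 1) → ℕ)
    (Φ : Fin (m + 1) → MvPolynomial (Fin (m + 1)) ℚ_[p]) : Prop where
  deg : ∀ i, (Φ i).totalDegree ≤ w i
  one : ‖coeff (Finsupp.single (Fin.last m) (w (Fin.last m))) (Φ (Fin.last m))‖ = (p : ℝ)
  int : ∀ i s, ¬ (i = Fin.last m ∧ s = Finsupp.single (Fin.last m) (w (Fin.last m))) →
    ‖coeff s (Φ i)‖ ≤ 1

/-- the coefficients modulo `p`, with the exception of the special one -/
def VRed {w : Fin (m + 1) → ℕ} (Φ : Fin (m + 1) → MvPolynomial (Fin (m + 1)) ℚ_[p])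
    (c : VIdx m w → ZMod p) : Prop :=
  ∀ k : VIdx m w, k ≠ vsp m w →
    ∃ z : ℤ_[p], (z : ℚ_[p]) = coeff k.2.1 (Φ k.1) ∧ PadicInt.toZMod z = c k

end

section

variable {K : Type*} [Field K] {m : ℕ}

/-- the values of the forms of degree `w i` at `(0, …, 0, 1)` -/
noncomputable def vz (w : Fin (m + 1) → ℕ) (Φ : Fin (m + 1) → MvPolynomial (Fin (m + 1)) K)
    (i : Fin (m + 1)) : K := coeff (Finsupp.single (Fin.last m) (w i)) (Φ i)

/-- the Jacobian matrix at `(0, …, 0, 1)` of the forms of degree `w i` -/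
noncomputable def vJ (w : Fin (m + 1) → ℕ) (Φ : Fin (m + 1) → MvPolynomial (Fin (m + 1)) K) :
    Matrix (Fin (m + 1)) (Fin (m + 1)) K :=
  Matrix.of fun i j => if j = Fin.last m then (w i : K) * vz w Φ i
    else coeff (Finsupp.single j 1 + Finsupp.single (Fin.last m) (w i - 1)) (Φ i)

/-- The block diagonal part of a matrix, for the blocks of equal degrees. -/
def vD (w : Fin (m + 1) → ℕ) (U : Matrix (Fin (m + 1)) (Fin (m + 1)) K) :
    Matrix (Fin (m + 1)) (Fin (m + 1)) K := Matrix.of fun i j => if w i = w j then U i j else 0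

/-- The bounds of the degrees. The Jacobian matrix `J` of the forms of degree `w i` at
`(0, …, 0, 1)` is a product `L U` of a unipotent matrix `L` which is lower triangular and an
invertible matrix `U` which is block upper triangular for the order of decreasing degree, and the
parts of the vector `L⁻¹ ((w_N - w_i) z_i)_i` in the blocks, `z` the values of the forms, generate
together with the last unit vector the whole space under the block diagonal part of `U`. -/
structure VDom (w : Fin (m + 1) → ℕ) (Φ : Fin (m + 1) → MvPolynomial (Fin (m + 1)) K) : Prop where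
  deg : ∀ i, (Φ i).totalDegree ≤ w i
  lu : ∃ (L U : Matrix (Fin (m + 1)) (Fin (m + 1)) K) (b : Fin (m + 1) → K),
    vJ w Φ = L * U ∧ (vD w U).det ≠ 0 ∧ (∀ i, L i i = 1) ∧
    (∀ i j, i ≠ j → L i j ≠ 0 → w i < w j) ∧
    (∀ i j, U i j ≠ 0 → w j ≤ w i) ∧
    (L.mulVec b = fun i => ((w (Fin.last m) - w i : ℕ) : K) * vz w Φ i) ∧
    Submodule.span K ({Pi.single (Fin.last m) 1} ∪
      {v | ∃ k E : ℕ, v = (vD w U ^ k).mulVec (fun i => if w i = E then b i else 0)}) = ⊤

end

end Pool.Agent.Helper26.DV
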