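import Pool.Agent.Helper26.DV.Wt
import Pool.Agent.Helper26.GT.Low

/-!
# Directional derivatives
-/

set_option autoImplicit false

namespace Pool.Agent.Helper26.DV

open MvPolynomial Pool.Agent.Helper26.GT

variable {K : Type*} [Field K] {n : ℕ} {δ : Fin n → ℕ}

/-- the directional derivative -/
noncomputable def dv (v : Fin n → K) (P : MvPolynomial (Fin n) K) : MvPolynomial (Fin n) K :=
  ∑ j, C (v j) * pderiv j P

theorem coeff_dv (v : Fin n → K) (P : MvPolynomial (Fin n) K) (t : Fin n →₀ ℕ) :
    coeff t (dv v P) = ∑ j, v j * (coeff (t + Finsupp.single j 1) P * (t j + 1)) := by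
  rw [dv, coeff_sum]
  refine Finset.sum_congr rfl fun j _ => ?_
  rw [coeff_C_mul, coeff_pderiv]

theorem dv_smul_vec (a : K) (v : Fin n → K) (P : MvPolynomial (Fin n) K) :
    dv (a • v) P = C a * dv v P := by
  rw [dv, dv, Finset.mul_sum]
  refine Finset.sum_congr rfl fun j _ => ?_
  rw [Pi.smul_apply, smul_eq_mul, C_mul, mul_assoc]

theorem dv_add_vec (u v : Fin n → K) (P : MvPolynomial (Fin n) K) :
    dv (u + v) P = dv u P + dv v P := by
  rw [dv, dv, dv, ← Finset.sum_add_distrib]
  refine Finset.sum_congr rfl fun j _ => ?_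
  rw [Pi.add_apply, C_add, add_mul]

theorem dv_C_mul (v : Fin n → K) (a : K) (P : MvPolynomial (Fin n) K) :
    dv v (C a * P) = C a * dv v P := by
  rw [dv, dv, Finset.mul_sum]
  refine Finset.sum_congr rfl fun j _ => ?_
  rw [pderiv_C_mul, mul_left_comm]

/-- the directions with vanishing derivative -/
noncomputable def ker (P : MvPolynomial (Fin n) K) : Submodule K (Fin n → K) where
  carrier := {v | dv v P = 0}
  add_mem' := by
    intro u v hu hv
    change dv (u + v) P = 0
    rw [dv_add_vec]
    change dv u P = 0 at hu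
    change dv v P = 0 at hv
    rw [hu, hv, add_zero]
  zero_mem' := by
    change dv 0 P = 0
    simp [dv]
  smul_mem' := by
    intro a v hv
    change dv (a • v) P = 0
    change dv v P = 0 at hv
    rw [dv_smul_vec, hv, mul_zero]

theorem mem_ker {P : MvPolynomial (Fin n) K} {v : Fin n → K} : v ∈ ker P ↔ dv v P = 0 := Iff.rfl

/-- If all derivatives vanish, the polynomial is constant. -/
theorem eq_zero_of_ker [CharZero K] {P : MvPolynomial (Fin n) K} (h : ker P = ⊤)
    {t : Fin n →₀ ℕ} (ht : t ≠ 0) : coeff t P = 0 := by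
  classical
  obtain ⟨j, hj⟩ : ∃ j, t j ≠ 0 := by
    by_contra hcon
    push Not at hcon
    exact ht (Finsupp.ext hcon)
  have h1 : (Pi.single j 1 : Fin n → K) ∈ ker P := by
    rw [h]
    exact Submodule.mem_top
  rw [mem_ker] at h1
  have h2 := congrArg (coeff (t - Finsupp.single j 1)) h1
  rw [coeff_dv, coeff_zero, Finset.sum_eq_single j] at h2
  · rw [Pi.single_eq_same, one_mul] at h2
    have h3 : t - Finsupp.single j 1 + Finsupp.single j 1 = t :=
      tsub_add_cancel_of_le (Finsupp.single_le_iff.2 (Nat.one_le_iff_ne_zero.2 hj))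
    rw [h3] at h2
    rcases mul_eq_zero.1 h2 with h4 | h4
    · exact h4
    · exfalso
      exact Nat.cast_add_one_ne_zero (R := K) _ h4
  · intro i _ hi
    rw [Pi.single_eq_of_ne hi, zero_mul]
  · intro h4
    exact absurd (Finset.mem_univ _) h4

/-- the chain rule -/
theorem pderiv_bind₁ (G : Fin n → MvPolynomial (Fin n) K) (P : MvPolynomial (Fin n) K)
    (j : Fin n) : pderiv j (bind₁ G P) = ∑ i, bind₁ G (pderiv i P) * pderiv j (G i) := by
  classical
  induction P using MvPolynomial.induction_on with
  | C a => simp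
  | add p q hp hq =>
    simp only [map_add, hp, hq, add_mul, Finset.sum_add_distrib]
  | mul_X p i hp =>
    rw [map_mul, bind₁_X_right, pderiv_mul, hp]
    have h1 : ∀ k, bind₁ G (pderiv k (p * X i)) * pderiv j (G k) =
        bind₁ G (pderiv k p) * pderiv j (G k) * G i +
          (if k = i then bind₁ G p * pderiv j (G i) else 0) := by
      intro k
      rw [pderiv_mul, map_add, map_mul, map_mul, bind₁_X_right, add_mul]
      congr 1
      · ring
      · rw [pderiv_X]
        by_cases hk : k = i
        · subst hk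
          rw [Pi.single_eq_same, map_one, mul_one, if_pos rfl]
        · rw [Pi.single_eq_of_ne (Ne.symm hk), map_zero, mul_zero, zero_mul, if_neg hk]
    simp only [h1]
    rw [Finset.sum_add_distrib, Finset.sum_ite_eq', if_pos (Finset.mem_univ _), Finset.sum_mul]

theorem dv_su (M : Matrix (Fin n) (Fin n) K) (v : Fin n → K) (P : MvPolynomial (Fin n) K) :
    dv v (su M P) = su M (dv (M.mulVec v) P) := by
  classical
  have h0 : ∀ i j, pderiv j (∑ k, C (M i k) * X k : MvPolynomial (Fin n) K) = C (M i j) := by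
    intro i j
    rw [map_sum, Finset.sum_eq_single j]
    · rw [pderiv_C_mul, pderiv_X_self, mul_one]
    · intro k _ hk
      rw [pderiv_C_mul, pderiv_X_of_ne hk, mul_zero]
    · intro h
      exact absurd (Finset.mem_univ _) h
  have h1 : ∀ j, C (v j) * pderiv j (su M P) = ∑ i, C (v j * M i j) * su M (pderiv i P) := by
    intro j
    rw [su, pderiv_bind₁, Finset.mul_sum]
    refine Finset.sum_congr rfl fun i _ => ?_
    rw [h0, C_mul, su]
    ring
  rw [dv]
  simp only [h1]
  rw [Finset.sum_comm, dv, su, map_sum]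
  refine Finset.sum_congr rfl fun i _ => ?_
  rw [map_mul, algHom_C, ← Finset.sum_mul, ← map_sum]
  have h2 : ∑ j, v j * M i j = M.mulVec v i := by
    rw [Matrix.mulVec, dotProduct]
    exact Finset.sum_congr rfl fun j _ => mul_comm _ _
  rw [h2]
  rfl

theorem pderiv_tr (z : Fin n → K) (P : MvPolynomial (Fin n) K) (j : Fin n) :
    pderiv j (tr z P) = tr z (pderiv j P) := by
  classical
  rw [tr, pderiv_bind₁, Finset.sum_eq_single j]
  · rw [map_add, pderiv_X_self, pderiv_C, add_zero, mul_one]
    rfl
  · intro i _ hi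
    rw [map_add, pderiv_X_of_ne hi, pderiv_C, add_zero, mul_zero]
  · intro h
    exact absurd (Finset.mem_univ _) h

/-- The derivative of the lowest form at `z` in the direction `a z`. -/
theorem coeff_dv_low (a z : Fin n → K) (Q : MvPolynomial (Fin n) K) {μ : ℕ}
    (hlow : ∀ t ∈ (tr z Q).support, μ ≤ t.degree) {t : Fin n →₀ ℕ} (ht : t.degree + 1 = μ) :
    coeff t (dv (fun i => a i * z i) (homogeneousComponent μ (tr z Q))) =
      coeff t (tr z (∑ j, C (a j) * (X j * pderiv j Q))) := by
  classical
  have h0 : ∀ s : Fin n →₀ ℕ, s.degree < μ → coeff s (tr z Q) = 0 := by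
    intro s hs
    by_contra hcon
    have := hlow s (mem_support_iff.2 hcon)
    omega
  have h1 : tr z (∑ j, C (a j) * (X j * pderiv j Q)) =
      ∑ j, C (a j) * ((X j + C (z j)) * pderiv j (tr z Q)) := by
    rw [tr, map_sum]
    refine Finset.sum_congr rfl fun j _ => ?_
    rw [map_mul, map_mul, bind₁_X_right, algHom_C, pderiv_tr]
    rfl
  rw [h1, coeff_dv, coeff_sum]
  refine Finset.sum_congr rfl fun j _ => ?_
  rw [coeff_C_mul, add_mul, coeff_add, coeff_C_mul, coeff_pderiv, coeff_X_mul']
  have h2 : coeff (t + Finsupp.single j 1) (homogeneousComponent μ (tr z Q)) =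
      coeff (t + Finsupp.single j 1) (tr z Q) := by
    rw [coeff_homogeneousComponent, if_pos]
    rw [map_add, Finsupp.degree_single, ht]
  have h3 : (if j ∈ t.support then coeff (t - Finsupp.single j 1) (pderiv j (tr z Q)) else 0) =
      0 := by
    split_ifs with h
    · rw [coeff_pderiv]
      have h4 : t - Finsupp.single j 1 + Finsupp.single j 1 = t :=
        tsub_add_cancel_of_le (Finsupp.single_le_iff.2
          (Nat.one_le_iff_ne_zero.2 (Finsupp.mem_support_iff.1 h)))
      rw [h4, h0 t (by omega), zero_mul]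
    · rfl
  rw [h2, h3]
  ring

/-- the weighted Euler operator -/
theorem coeff_euler (a : Fin n → ℕ) (Q : MvPolynomial (Fin n) K) (t : Fin n →₀ ℕ) :
    coeff t (∑ j, C (a j : K) * (X j * pderiv j Q)) = (ow a t : K) * coeff t Q := by
  classical
  rw [coeff_sum, ow, Nat.cast_sum, Finset.sum_mul]
  refine Finset.sum_congr rfl fun j _ => ?_
  rw [coeff_C_mul, coeff_X_mul']
  split_ifs with h
  · have h4 : t - Finsupp.single j 1 + Finsupp.single j 1 = t :=
      tsub_add_cancel_of_le (Finsupp.single_le_iff.2
        (Nat.one_le_iff_ne_zero.2 (Finsupp.mem_support_iff.1 h)))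
    rw [coeff_pderiv, h4, Finsupp.tsub_apply, Finsupp.single_eq_same]
    have h5 : ((t j - 1 : ℕ) : K) + 1 = t j := by
      have h6 : 1 ≤ t j := Nat.one_le_iff_ne_zero.2 (Finsupp.mem_support_iff.1 h)
      exact_mod_cast congrArg (Nat.cast (R := K)) (Nat.sub_add_cancel h6)
    rw [h5]
    push_cast
    ring
  · rw [Finsupp.notMem_support_iff] at h
    rw [h]
    simp

/-- For a polynomial of pure weight, the vanishing of a derivative splits. -/
theorem dv_level {β : ℕ} {P : MvPolynomial (Fin n) K} (h1 : Le δ β P) (h2 : Ge δ β P)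
    {b : Fin n → K} (hb : dv b P = 0) (E : ℕ) :
    dv (fun i => if δ i = E then b i else 0) P = 0 := by
  classical
  have hw : ∀ s, coeff s P ≠ 0 → ow δ s = β := fun s hs =>
    le_antisymm (h1 s (mem_support_iff.2 hs)) (h2 s (mem_support_iff.2 hs))
  ext t
  rw [coeff_zero, coeff_dv]
  have h3 := congrArg (coeff t) hb
  rw [coeff_zero, coeff_dv] at h3
  by_cases ht : ow δ t + E = β
  · refine (Finset.sum_congr rfl fun j _ => ?_).trans h3
    by_cases hj : δ j = E
    · rw [if_pos hj]
    · rw [if_neg hj, zero_mul]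
      by_cases h4 : coeff (t + Finsupp.single j 1) P = 0
      · rw [h4, zero_mul, mul_zero]
      · have h5 := hw _ h4
        rw [ow_add, ow_single, one_mul] at h5
        omega
  · refine Finset.sum_eq_zero fun j _ => ?_
    by_cases hj : δ j = E
    · by_cases h4 : coeff (t + Finsupp.single j 1) P = 0
      · rw [h4, zero_mul, mul_zero]
      · have h5 := hw _ h4
        rw [ow_add, ow_single, one_mul] at h5
        omega
    · rw [if_neg hj, zero_mul]

theorem Le.tr {β : ℕ} {P : MvPolynomial (Fin n) K} (hP : Le δ β P) (z : Fin n → K) :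
    Le δ β (GT.tr z P) := hP.bind fun i => (Le.X i).add (Le.C _ _)

end Pool.Agent.Helper26.DV
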