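import Pool.Agent.Helper26.DV.Main

/-!
# The case of equality
-/

set_option autoImplicit false

namespace Pool.Agent.Helper26.DV

open MvPolynomial Pool.Agent.Helper26.GT Pool.Agent.Helper26.RR

variable {K : Type*} [Field K] {m : ℕ}
variable {w : Fin (m + 1) → ℕ} {Φ : Fin (m + 1) → MvPolynomial (Fin (m + 1)) K}
  {F : MvPolynomial (Fin (m + 1)) K}
variable {L U : Matrix (Fin (m + 1)) (Fin (m + 1)) K} {b : Fin (m + 1) → K}

theorem mw_ge (hle : ∀ i, w i ≤ w (Fin.last m)) (hF : F ≠ 0) :
    w (Fin.last m) * F.totalDegree ≤ mw w F + bt (dl w) F := by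
  obtain ⟨s, hs, hd, hb⟩ := bt_spec (dl w) hF
  have h1 := ow_dl hle s
  have h2 := le_mw (w := w) hs
  rw [hd, hb] at h1
  omega

theorem ptF_le (hle : ∀ i, w i ≤ w (Fin.last m)) :
    Le (dl w) (bt (dl w) F) (pt w (mw w F) F) := by
  intro s hs
  rw [mem_support_iff, coeff_pt] at hs
  split_ifs at hs with h
  · have hs' : s ∈ F.support := mem_support_iff.2 hs
    have hF : F ≠ 0 := by
      rintro rfl
      simp at hs
    have h1 := ow_dl hle s
    have h2 := mw_ge hle hF
    have h3 : w (Fin.last m) * s.degree ≤ w (Fin.last m) * F.totalDegree :=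
      Nat.mul_le_mul_left _ (deg_le hs')
    omega
  · exact absurd rfl hs

theorem mw_eq [Infinite K] (h : Fac w Φ L U b) (hF : F ≠ 0)
    (heq : bt (dl w) (bind₁ Φ F) = bt (dl w) F) :
    mw w F + bt (dl w) F = w (Fin.last m) * F.totalDegree := by
  refine le_antisymm ?_ (mw_ge h.le hF)
  by_contra hcon
  push Not at hcon
  have h1 : ∀ s ∈ (pt w (mw w F) F).support, ow (dl w) s + 1 ≤ bt (dl w) F := by
    intro s hs
    rw [mem_support_iff, coeff_pt] at hs
    split_ifs at hs with h2
    · have hs' : s ∈ F.support := mem_support_iff.2 hs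
      have h1 := ow_dl h.le s
      have h3 : w (Fin.last m) * s.degree ≤ w (Fin.last m) * F.totalDegree :=
        Nat.mul_le_mul_left _ (deg_le hs')
      omega
    · exact absurd rfl hs
  obtain ⟨s, hs⟩ := support_nonempty.2 (ptF_ne (w := w) hF)
  have h2 := h1 s hs
  have h3 : Le (dl w) (bt (dl w) F - 1) (pt w (mw w F) F) := fun t ht => by
    have := h1 t ht
    omega
  have h4 := (bt_le_of h hF h3).1
  omega

/-- the lowest form is invariant in the direction of the weighted Euler vector -/
theorem dv_euler : dv (fun i => (w i : K) * vz w Φ i) (PP w Φ F) = 0 := by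
  classical
  ext t
  rw [coeff_zero]
  by_cases ht : t.degree + 1 = lo (RR w Φ F)
  · rw [PP, RR, coeff_dv_low (fun i => (w i : K)) (vz w Φ) (pt w (mw w F) F)
      (fun s hs => lo_le hs) ht]
    have h1 : ∑ j, C (w j : K) * (X j * pderiv j (pt w (mw w F) F)) =
        C (mw w F : K) * pt w (mw w F) F := by
      ext s
      rw [coeff_euler, coeff_C_mul]
      by_cases hs : ow w s = mw w F
      · rw [hs]
      · rw [coeff_pt, if_neg hs, mul_zero, mul_zero]
    rw [h1, tr, map_mul, algHom_C]
    have h2 : coeff t (RR w Φ F) = 0 := by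
      by_contra hcon
      have := lo_le (mem_support_iff.2 hcon)
      omega
    rw [RR, tr] at h2
    change coeff t (C (mw w F : K) * _) = 0
    rw [coeff_C_mul, h2, mul_zero]
  · rw [coeff_dv]
    refine Finset.sum_eq_zero fun j _ => ?_
    rw [PP, coeff_homogeneousComponent, if_neg, zero_mul, mul_zero]
    rw [map_add, Finsupp.degree_single]
    exact ht

theorem dv_delta (hle : ∀ i, w i ≤ w (Fin.last m))
    (hmw : mw w F + bt (dl w) F = w (Fin.last m) * F.totalDegree) (t : Fin (m + 1) →₀ ℕ)
    (ht0 : t ∈ (dv (fun i => (dl w i : K) * vz w Φ i) (PP w Φ F)).support) :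
    ow (dl w) t + w (Fin.last m) ≤ bt (dl w) F := by
  classical
  rw [mem_support_iff] at ht0
  by_cases ht : t.degree + 1 = lo (RR w Φ F)
  · rw [PP, RR, coeff_dv_low (fun i => (dl w i : K)) (vz w Φ) (pt w (mw w F) F)
      (fun s hs => lo_le hs) ht] at ht0
    set Q := pt w (mw w F) F with hQ
    set S := ∑ j, C (dl w j : K) * (X j * pderiv j Q) - C (bt (dl w) F : K) * Q with hS
    have h2 : coeff t (tr (vz w Φ) Q) = 0 := by
      by_contra hcon
      have := lo_le (R := RR w Φ F) (mem_support_iff.2 hcon)
      omega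
    have h3 : coeff t (tr (vz w Φ) S) ≠ 0 := by
      rw [hS, tr, map_sub, coeff_sub, map_mul, algHom_C]
      have h4 : coeff t (C (bt (dl w) F : K) * bind₁ (fun i => X i + C (vz w Φ i)) Q) = 0 := by
        rw [coeff_C_mul]
        rw [tr] at h2
        rw [h2, mul_zero]
      change coeff t _ - coeff t (C (bt (dl w) F : K) * bind₁ (fun i => X i + C (vz w Φ i)) Q) ≠ 0
      rw [h4, sub_zero]
      exact ht0
    have h5 : ∀ s ∈ S.support, ow (dl w) s + w (Fin.last m) ≤ bt (dl w) F := by
      intro s hs
      rw [mem_support_iff, hS, coeff_sub, coeff_euler, coeff_C_mul, ← sub_mul] at hs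
      have h6 := left_ne_zero_of_mul hs
      have h7 := right_ne_zero_of_mul hs
      rw [hQ, coeff_pt] at h7
      split_ifs at h7 with h8
      · have hs' : s ∈ F.support := mem_support_iff.2 h7
        have h9 := ow_dl hle s
        have h10 := deg_le hs'
        rcases h10.lt_or_eq with h11 | h11
        · obtain ⟨q, hq⟩ := Nat.exists_eq_add_of_lt h11
          rw [hq] at hmw
          nlinarith
        · exfalso
          apply h6
          rw [h11, ← hmw, h8] at h9
          have h12 : ow (dl w) s = bt (dl w) F := by omega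
          rw [h12, sub_self]
      · exact absurd rfl h7
    have hSne : S ≠ 0 := by
      rintro h6
      rw [h6, tr, map_zero, coeff_zero] at h3
      exact h3 rfl
    obtain ⟨s, hs⟩ := support_nonempty.2 hSne
    have h6 := h5 s hs
    have h7 : Le (dl w) (bt (dl w) F - w (Fin.last m)) S := fun s hs => by
      have := h5 s hs
      omega
    have h8 := (h7.tr (vz w Φ)) t (mem_support_iff.2 h3)
    omega
  · exfalso
    apply ht0
    rw [coeff_dv]
    refine Finset.sum_eq_zero fun j _ => ?_
    rw [PP, coeff_homogeneousComponent, if_neg, zero_mul, mul_zero]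
    rw [map_add, Finsupp.degree_single]
    exact ht

theorem Fac.U_last (h : Fac w Φ L U b) (i : Fin (m + 1)) (hi : i ≠ Fin.last m) :
    U i (Fin.last m) = 0 := by
  by_contra hcon
  have h1 := h.up i _ hcon
  have h2 := h.lt i hi
  omega

theorem Fac.U_ne (h : Fac w Φ L U b) : U (Fin.last m) (Fin.last m) ≠ 0 := by
  intro h0
  refine h.det (Matrix.det_eq_zero_of_column_eq_zero (Fin.last m) fun i => ?_)
  rw [vD, Matrix.of_apply]
  split_ifs with h1
  · by_cases hi : i = Fin.last m
    · rw [hi, h0]
    · exact h.U_last i hi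
  · rfl

section

variable [Infinite K] (h : Fac w Φ L U b)

include h

/-- invariance in the direction of the last variable -/
theorem last_mem : (Pi.single (Fin.last m) 1 : Fin (m + 1) → K) ∈ ker (su L (PP w Φ F)) := by
  classical
  have h1 : L.mulVec (U (Fin.last m) (Fin.last m) • (Pi.single (Fin.last m) 1)) =
      fun i => (w i : K) * vz w Φ i := by
    have h2 : U.mulVec (Pi.single (Fin.last m) 1) =
        U (Fin.last m) (Fin.last m) • (Pi.single (Fin.last m) 1) := by
      funext i
      rw [Matrix.mulVec_single_one, Matrix.col_apply, Pi.smul_apply, smul_eq_mul]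
      by_cases hi : i = Fin.last m
      · rw [hi, Pi.single_eq_same, mul_one]
      · rw [Pi.single_eq_of_ne hi, mul_zero, h.U_last i hi]
    rw [← h2, Matrix.mulVec_mulVec, ← h.eq]
    funext i
    rw [Matrix.mulVec_single_one, Matrix.col_apply, vJ, Matrix.of_apply, if_pos rfl]
  have h3 := dv_su L (U (Fin.last m) (Fin.last m) • (Pi.single (Fin.last m) 1)) (PP w Φ F)
  rw [h1, dv_euler, dv_smul_vec] at h3
  have h4 : su L (0 : MvPolynomial (Fin (m + 1)) K) = 0 := by rw [su, map_zero]
  rw [h4] at h3
  rw [mem_ker]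
  rcases mul_eq_zero.1 h3 with h5 | h5
  · exact absurd (C_eq_zero.1 h5) h.U_ne
  · exact h5

/-- invariance in the directions of the blocks of `b` -/
theorem level_mem (hF : F ≠ 0) (heq : bt (dl w) (bind₁ Φ F) = bt (dl w) F) (E : ℕ) :
    (fun i => if w i = E then b i else 0) ∈ ker (su L (PP w Φ F)) := by
  classical
  have hmw := mw_eq h hF heq
  obtain ⟨hle, hge, -, -⟩ := (bt_le_of h hF (ptF_le h.le)).2 heq
  have hb : dv b (su L (PP w Φ F)) = 0 := by
    by_contra hne
    obtain ⟨t, ht⟩ := support_nonempty.2 hne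
    have ht' := ht
    rw [mem_support_iff, coeff_dv] at ht
    obtain ⟨j, -, hj⟩ := Finset.exists_ne_zero_of_sum_ne_zero ht
    have h1 : coeff (t + Finsupp.single j 1) (su L (PP w Φ F)) ≠ 0 := by
      intro h0
      rw [h0, zero_mul, mul_zero] at hj
      exact hj rfl
    have h2 := hge _ (mem_support_iff.2 h1)
    rw [ow_add, ow_single, one_mul] at h2
    have h3 : dl w j < w (Fin.last m) := by
      unfold dl
      have := h.one j
      have := h.le j
      omega
    rw [dv_su, h.vec] at hne ht'
    have h4 : ∀ s ∈ (dv (fun i => ((w (Fin.last m) - w i : ℕ) : K) * vz w Φ i)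
        (PP w Φ F)).support, ow (dl w) s + w (Fin.last m) ≤ bt (dl w) F :=
      fun s hs => dv_delta h.le hmw s hs
    have h5 : dv (fun i => ((w (Fin.last m) - w i : ℕ) : K) * vz w Φ i) (PP w Φ F) ≠ 0 := by
      intro h0
      rw [h0, su, map_zero] at hne
      exact hne rfl
    obtain ⟨s, hs⟩ := support_nonempty.2 h5
    have h6 := h4 s hs
    have h7 : Le (dl w) (bt (dl w) F - w (Fin.last m))
        (dv (fun i => ((w (Fin.last m) - w i : ℕ) : K) * vz w Φ i) (PP w Φ F)) := fun s hs => by
      have := h4 s hs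
      omega
    have h8 := (h7.su h.L_le) t ht'
    omega
  rw [mem_ker]
  by_cases hE : E ≤ w (Fin.last m)
  · have h1 := dv_level hle hge hb (w (Fin.last m) - E)
    have h2 : (fun i => if w i = E then b i else 0) =
        fun i => if dl w i = w (Fin.last m) - E then b i else 0 := by
      funext i
      have := h.le i
      by_cases h3 : w i = E
      · rw [if_pos h3, if_pos (by unfold dl; omega)]
      · rw [if_neg h3, if_neg (by unfold dl; omega)]
    rw [h2]
    exact h1
  · have h2 : (fun i => if w i = E then b i else 0) = (0 : Fin (m + 1) → K) := by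
      funext i
      have := h.le i
      rw [if_neg (by omega)]
      rfl
    rw [h2]
    exact (ker (su L (PP w Φ F))).zero_mem

end

end Pool.Agent.Helper26.DV
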