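import Pool.Agent.Helper26.DV.Step

/-!
# The weighted order does not increase
-/

set_option autoImplicit false

namespace Pool.Agent.Helper26.DV

open MvPolynomial Pool.Agent.Helper26.GT Pool.Agent.Helper26.RR

variable {K : Type*} [Field K] {m : ℕ}

/-- the smallest degree of a monomial -/
noncomputable def lo (R : MvPolynomial (Fin (m + 1)) K) : ℕ :=
  sInf {n | ∃ t ∈ R.support, t.degree = n}

theorem lo_spec {R : MvPolynomial (Fin (m + 1)) K} (hR : R ≠ 0) :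
    ∃ t ∈ R.support, t.degree = lo R := by
  obtain ⟨t, ht⟩ := support_nonempty.2 hR
  have hne : {n | ∃ t ∈ R.support, t.degree = n}.Nonempty := ⟨t.degree, t, ht, rfl⟩
  exact Nat.sInf_mem hne

theorem lo_le {R : MvPolynomial (Fin (m + 1)) K} {t : Fin (m + 1) →₀ ℕ} (ht : t ∈ R.support) :
    lo R ≤ t.degree := Nat.sInf_le ⟨t, ht, rfl⟩

/-- the expansion at the point `z` of the part of the largest weight -/
noncomputable def RR (w : Fin (m + 1) → ℕ) (Φ : Fin (m + 1) → MvPolynomial (Fin (m + 1)) K)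
    (F : MvPolynomial (Fin (m + 1)) K) : MvPolynomial (Fin (m + 1)) K :=
  tr (vz w Φ) (pt w (mw w F) F)

/-- its lowest form -/
noncomputable def PP (w : Fin (m + 1) → ℕ) (Φ : Fin (m + 1) → MvPolynomial (Fin (m + 1)) K)
    (F : MvPolynomial (Fin (m + 1)) K) : MvPolynomial (Fin (m + 1)) K :=
  homogeneousComponent (lo (RR w Φ F)) (RR w Φ F)

variable {w : Fin (m + 1) → ℕ} {Φ : Fin (m + 1) → MvPolynomial (Fin (m + 1)) K}
  {F : MvPolynomial (Fin (m + 1)) K}

theorem ptF_ne (hF : F ≠ 0) : pt w (mw w F) F ≠ 0 := by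
  obtain ⟨s, hs, h⟩ := exists_mw w hF
  intro h0
  have h1 := congrArg (coeff s) h0
  rw [coeff_pt, if_pos h, coeff_zero] at h1
  exact mem_support_iff.1 hs h1

theorem RR_ne (hF : F ≠ 0) : RR w Φ F ≠ 0 := tr_ne_zero (ptF_ne hF)

theorem PP_ne (hF : F ≠ 0) : PP w Φ F ≠ 0 := by
  obtain ⟨t, ht, h⟩ := lo_spec (RR_ne (w := w) (Φ := Φ) hF)
  intro h0
  have h1 := congrArg (coeff t) h0
  rw [PP, coeff_homogeneousComponent, if_pos h, coeff_zero] at h1
  exact mem_support_iff.1 ht h1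

theorem Le.hc {δ : Fin (m + 1) → ℕ} {β : ℕ} {P : MvPolynomial (Fin (m + 1)) K} (hP : Le δ β P)
    (j : ℕ) : Le δ β (homogeneousComponent j P) := by
  intro t ht
  rw [mem_support_iff, coeff_homogeneousComponent] at ht
  split_ifs at ht with h
  · exact hP t (mem_support_iff.2 ht)
  · exact absurd rfl ht

section

variable (hdeg : ∀ i, (Φ i).totalDegree ≤ w i) (h1w : ∀ i, 1 ≤ w i)

include hdeg h1w

theorem La_coeff (v : Fin m → K) :
    (∀ j < lo (RR w Φ F), ((La v (bind₁ Φ F)).coeff (mw w F)).coeff j = 0) ∧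
    ((La v (bind₁ Φ F)).coeff (mw w F)).coeff (lo (RR w Φ F)) =
      eval ((vJ w Φ).mulVec (Fin.snoc v 0)) (PP w Φ F) := by
  rw [comp_top hdeg F v]
  exact coeff_low (pt w (mw w F) F) (z := vz w Φ) (u := (vJ w Φ).mulVec (Fin.snoc v 0))
    (w := fun i => (La v (Φ i)).coeff (w i)) (coeff_zero_eq hdeg v) (coeff_one_eq h1w hdeg v)
    fun t ht => lo_le ht

theorem euler_PP (y : Fin (m + 1) → K) (c : K) :
    eval (fun i => y i + c * (w i * vz w Φ i)) (PP w Φ F) = eval y (PP w Φ F) := by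
  refine euler (pt w (mw w F) F) (wt := w) (W := mw w F) (fun t ht => ?_) (vz w Φ)
    (fun t ht => lo_le ht) y c
  rw [mem_support_iff, coeff_pt] at ht
  split_ifs at ht with h
  · exact h
  · exact absurd rfl ht

theorem eval_su_PP (y : Fin (m + 1) → K) :
    eval y (su (vJ w Φ) (PP w Φ F)) =
      ((La (fun k => y k.castSucc) (bind₁ Φ F)).coeff (mw w F)).coeff (lo (RR w Φ F)) := by
  rw [(La_coeff hdeg h1w _).2, eval_su]
  have h1 : y = Fin.snoc (fun k => y k.castSucc) (y (Fin.last m)) := by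
    funext i
    refine Fin.lastCases ?_ (fun k => ?_) i
    · rw [Fin.snoc_last]
    · rw [Fin.snoc_castSucc]
  have h2 : (vJ w Φ).mulVec y = fun i =>
      (vJ w Φ).mulVec (Fin.snoc (fun k => y k.castSucc) 0) i +
        y (Fin.last m) * (w i * vz w Φ i) := by
    funext i
    conv_lhs => rw [h1]
    exact vJ_last w Φ _ _ i
  rw [h2, euler_PP hdeg h1w]

theorem bind_ne (hne : su (vJ w Φ) (PP w Φ F) ≠ 0) [Infinite K] :
    bind₁ Φ F ≠ 0 ∧ (bind₁ Φ F).totalDegree = mw w F := by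
  obtain ⟨y, hy⟩ : ∃ y, eval y (su (vJ w Φ) (PP w Φ F)) ≠ 0 := by
    by_contra hcon
    push Not at hcon
    exact hne (MvPolynomial.funext fun y => by rw [hcon y, map_zero])
  rw [eval_su_PP hdeg h1w] at hy
  have hG : (bind₁ Φ F).totalDegree ≤ mw w F :=
    totalDegree_bind_le hdeg fun _ hs => le_mw hs
  rw [(La_top _ hG).2] at hy
  obtain ⟨s, hs, -⟩ := Finset.exists_ne_zero_of_sum_ne_zero hy
  rw [Finset.mem_filter] at hs
  refine ⟨?_, le_antisymm hG (hs.2.1 ▸ deg_le hs.1)⟩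
  intro h0
  rw [h0] at hs
  simp at hs

theorem hh_eq (hne : su (vJ w Φ) (PP w Φ F) ≠ 0) [Infinite K] :
    (∀ j < lo (RR w Φ F), hh (bind₁ Φ F) j = 0) ∧
    hh (bind₁ Φ F) (lo (RR w Φ F)) = su (vJ w Φ) (PP w Φ F) := by
  obtain ⟨-, h2⟩ := bind_ne hdeg h1w hne
  constructor
  · intro j hj
    refine MvPolynomial.funext fun y => ?_
    rw [eval_hh, h2, map_zero, (La_coeff hdeg h1w _).1 j hj]
  · refine MvPolynomial.funext fun y => ?_
    rw [eval_hh, h2, eval_su_PP hdeg h1w]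

end

/-- The factorisation. -/
structure Fac (w : Fin (m + 1) → ℕ) (Φ : Fin (m + 1) → MvPolynomial (Fin (m + 1)) K)
    (L U : Matrix (Fin (m + 1)) (Fin (m + 1)) K) (b : Fin (m + 1) → K) : Prop where
  deg : ∀ i, (Φ i).totalDegree ≤ w i
  one : ∀ i, 1 ≤ w i
  lt : ∀ i, i ≠ Fin.last m → w i < w (Fin.last m)
  eq : vJ w Φ = L * U
  det : (vD w U).det ≠ 0
  diag : ∀ i, L i i = 1
  low : ∀ i j, i ≠ j → L i j ≠ 0 → w i < w j
  up : ∀ i j, U i j ≠ 0 → w j ≤ w i
  vec : L.mulVec b = fun i => ((w (Fin.last m) - w i : ℕ) : K) * vz w Φ i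

variable {L U : Matrix (Fin (m + 1)) (Fin (m + 1)) K} {b : Fin (m + 1) → K}

theorem Fac.le (h : Fac w Φ L U b) (i : Fin (m + 1)) : w i ≤ w (Fin.last m) := by
  by_cases hi : i = Fin.last m
  · rw [hi]
  · exact (h.lt i hi).le

theorem Fac.dL (h : Fac w Φ L U b) : dg (dl w) L = 1 := by
  ext i j
  rw [dg, Matrix.of_apply]
  by_cases hij : i = j
  · subst hij
    rw [if_pos rfl, h.diag, Matrix.one_apply_eq]
  · rw [Matrix.one_apply_ne hij]
    split_ifs with h1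
    · by_contra h2
      have h3 := h.low i j hij h2
      have h4 := h.le i
      have h5 := h.le j
      unfold dl at h1
      omega
    · rfl

theorem Fac.dU (h : Fac w Φ L U b) : dg (dl w) U = vD w U := by
  ext i j
  rw [dg, Matrix.of_apply, vD, Matrix.of_apply]
  have h4 := h.le i
  have h5 := h.le j
  by_cases h1 : w i = w j
  · rw [if_pos h1, if_pos (by unfold dl; omega)]
  · rw [if_neg h1, if_neg (by unfold dl; omega)]

theorem Fac.L_le (h : Fac w Φ L U b) (i j : Fin (m + 1)) (hL : L i j ≠ 0) :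
    dl w j ≤ dl w i := by
  by_cases hij : i = j
  · rw [hij]
  · have := h.low i j hij hL
    unfold dl
    omega

theorem Fac.U_le (h : Fac w Φ L U b) (i j : Fin (m + 1)) (hU : U i j ≠ 0) :
    dl w i ≤ dl w j := by
  have := h.up i j hU
  unfold dl
  omega

theorem exists_max_ow (δ : Fin (m + 1) → ℕ) {P : MvPolynomial (Fin (m + 1)) K} (hP : P ≠ 0) :
    ∃ γ, Le δ γ P ∧ pt δ γ P ≠ 0 := by
  obtain ⟨t, ht, h⟩ := Finset.exists_max_image P.support (ow δ) (support_nonempty.2 hP)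
  refine ⟨ow δ t, h, fun h0 => ?_⟩
  have h1 := congrArg (coeff t) h0
  rw [coeff_pt, if_pos rfl, coeff_zero] at h1
  exact mem_support_iff.1 ht h1

theorem exists_min_ow (δ : Fin (m + 1) → ℕ) {P : MvPolynomial (Fin (m + 1)) K} (hP : P ≠ 0) :
    ∃ γ, Ge δ γ P ∧ pt δ γ P ≠ 0 ∧ ∃ t ∈ P.support, ow δ t = γ := by
  obtain ⟨t, ht, h⟩ := Finset.exists_min_image P.support (ow δ) (support_nonempty.2 hP)
  refine ⟨ow δ t, h, fun h0 => ?_, t, ht, rfl⟩
  have h1 := congrArg (coeff t) h0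
  rw [coeff_pt, if_pos rfl, coeff_zero] at h1
  exact mem_support_iff.1 ht h1

section

variable [Infinite K] (h : Fac w Φ L U b)

include h

theorem suL_ne (hF : F ≠ 0) : su L (PP w Φ F) ≠ 0 := by
  obtain ⟨γ, h1, h2⟩ := exists_max_ow (dl w) (PP_ne (w := w) (Φ := Φ) hF)
  intro h0
  refine h2 ?_
  have h3 := pt_su_le h1 h.L_le
  rw [h0, pt_zero, h.dL, su_one] at h3
  exact h3.symm

theorem suJ_ne (hF : F ≠ 0) : su (vJ w Φ) (PP w Φ F) ≠ 0 := by
  obtain ⟨γ, h1, h2, -⟩ := exists_min_ow (dl w) (suL_ne h hF)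
  intro h0
  rw [h.eq, su_mul] at h0
  have h3 := pt_su_ge h1 h.U_le
  rw [h0, pt_zero, h.dU] at h3
  exact su_ne_zero h.det h2 h3.symm

/-- The weighted order does not increase. -/
theorem bt_le_of (hF : F ≠ 0) {β : ℕ} (hβ : Le (dl w) β (pt w (mw w F) F)) :
    bt (dl w) (bind₁ Φ F) ≤ β ∧ (bt (dl w) (bind₁ Φ F) = β →
      Le (dl w) β (su L (PP w Φ F)) ∧ Ge (dl w) β (su L (PP w Φ F)) ∧
      pt (dl w) β (PP w Φ F) = su L (PP w Φ F) ∧
      pt (dl w) β (hh (bind₁ Φ F) (lo (RR w Φ F))) = su (vD w U) (su L (PP w Φ F))) := by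
  have hne := suJ_ne h hF
  have hP : Le (dl w) β (PP w Φ F) := (hβ.tr _).hc _
  have hπ : Le (dl w) β (su L (PP w Φ F)) := hP.su h.L_le
  obtain ⟨γ, h1, h2, t₀, ht₀, htγ⟩ := exists_min_ow (dl w) (suL_ne h hF)
  have hγ : γ ≤ β := htγ ▸ hπ t₀ ht₀
  have hJ : su (vJ w Φ) (PP w Φ F) = su U (su L (PP w Φ F)) := by rw [h.eq, su_mul]
  have h3 := pt_su_ge h1 h.U_le
  rw [← hJ, h.dU] at h3
  have h4 : pt (dl w) γ (su (vJ w Φ) (PP w Φ F)) ≠ 0 := by
    rw [h3]
    exact su_ne_zero h.det h2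
  obtain ⟨-, h5⟩ := hh_eq h.deg h.one hne
  have h6 : bt (dl w) (bind₁ Φ F) ≤ γ := by
    by_contra hcon
    push Not at hcon
    refine h4 ?_
    rw [← h5]
    exact pt_of_ge hcon (hh_ge (dl_last w) _ _)
  refine ⟨h6.trans hγ, fun heq => ?_⟩
  have h7 : γ = β := le_antisymm hγ (heq ▸ h6)
  subst h7
  refine ⟨hπ, h1, ?_, ?_⟩
  · have h8 := pt_su_le hP h.L_le
    rw [h.dL, su_one, pt_eq_self hπ h1] at h8
    exact h8.symm
  · rw [h5, h3, pt_eq_self hπ h1]

end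

end Pool.Agent.Helper26.DV
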