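import Pool.Agent.Helper26.DV.Equ

/-!
# Two consecutive steps with constant order
-/

set_option autoImplicit false

namespace Pool.Agent.Helper26.DV

open MvPolynomial Pool.Agent.Helper26.GT Pool.Agent.Helper26.RR

variable {K : Type*} [Field K] {m : ℕ}
variable {w : Fin (m + 1) → ℕ} {Φ : Fin (m + 1) → MvPolynomial (Fin (m + 1)) K}
  {F : MvPolynomial (Fin (m + 1)) K}
variable {L U : Matrix (Fin (m + 1)) (Fin (m + 1)) K} {b : Fin (m + 1) → K}

/-- setting the last variable to zero -/
noncomputable def K0 (P : MvPolynomial (Fin (m + 1)) K) : MvPolynomial (Fin (m + 1)) K :=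
  bind₁ (fun i => if i = Fin.last m then 0 else X i) P

theorem coeff_K0 (P : MvPolynomial (Fin (m + 1)) K) {t : Fin (m + 1) →₀ ℕ}
    (ht : t (Fin.last m) = 0) : coeff t (K0 P) = coeff t P := by
  classical
  have h1 : ∀ s : Fin (m + 1) →₀ ℕ, (C (coeff s P) * ∏ i,
      (if i = Fin.last m then (0 : MvPolynomial (Fin (m + 1)) K) else X i) ^ s i) =
        if s (Fin.last m) = 0 then monomial s (coeff s P) else 0 := by
    intro s
    split_ifs with hs
    · rw [monomial_eq, Finsupp.prod_fintype _ _ fun _ => pow_zero _]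
      congr 1
      refine Finset.prod_congr rfl fun i _ => ?_
      by_cases hi : i = Fin.last m
      · rw [if_pos hi, hi, hs, pow_zero, pow_zero]
      · rw [if_neg hi]
    · rw [Finset.prod_eq_zero (Finset.mem_univ (Fin.last m)), mul_zero]
      rw [if_pos rfl, zero_pow hs]
  rw [K0, bind₁_eq_sum, coeff_sum]
  simp only [h1]
  by_cases hP : t ∈ P.support
  · rw [Finset.sum_eq_single t]
    · rw [if_pos ht, coeff_monomial, if_pos rfl]
    · intro s _ hs
      split_ifs
      · rw [coeff_monomial, if_neg hs]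
      · rw [coeff_zero]
    · intro h
      exact absurd hP h
  · rw [notMem_support_iff.1 hP]
    refine Finset.sum_eq_zero fun s hs => ?_
    split_ifs
    · rw [coeff_monomial, if_neg]
      rintro rfl
      exact hP hs
    · rw [coeff_zero]

theorem prod_er (s : Fin (m + 1) →₀ ℕ) (a c : K) :
    (C c * ∏ i, (if i = Fin.last m then C a else (X i : MvPolynomial (Fin (m + 1)) K)) ^ s i) =
      monomial (er s) (c * a ^ s (Fin.last m)) := by
  rw [monomial_eq, Finsupp.prod_fintype _ _ fun _ => pow_zero _, Fin.prod_univ_castSucc,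
    Fin.prod_univ_castSucc, er_last, pow_zero, mul_one, if_pos rfl, C_mul, C_pow]
  have h1 : ∏ i : Fin m, (if i.castSucc = Fin.last m then C a
      else (X i.castSucc : MvPolynomial (Fin (m + 1)) K)) ^ s i.castSucc =
      ∏ i : Fin m, X i.castSucc ^ er s i.castSucc := by
    refine Finset.prod_congr rfl fun i _ => ?_
    rw [if_neg (Fin.castSucc_ne_last i), er_castSucc]
  rw [h1]
  ring

/-- The coefficients of largest weight of the expansion at `z`. -/
theorem coeff_RR (h1w : ∀ i, 1 ≤ w i) (hlt : ∀ i, i ≠ Fin.last m → w i < w (Fin.last m))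
    (hle : ∀ i, w i ≤ w (Fin.last m))
    (hmw : mw w F + bt (dl w) F = w (Fin.last m) * F.totalDegree)
    {s : Fin (m + 1) →₀ ℕ} (hs : s.degree = F.totalDegree) (hb : ow (dl w) s = bt (dl w) F) :
    coeff (er s) (RR w Φ F) = vz w Φ (Fin.last m) ^ s (Fin.last m) * coeff s F := by
  classical
  set δ := dl w with hδ
  set β := bt δ F with hβ
  have hδ0 : ∀ i, δ i = 0 ↔ i = Fin.last m := by
    intro i
    constructor
    · intro h
      by_contra hcon
      have := hlt i hcon
      rw [hδ] at h
      unfold dl at h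
      omega
    · rintro rfl
      exact dl_last w
  have hQ : Le δ β (pt w (mw w F) F) := ptF_le hle
  have hte : ow δ (er s) = β := by rw [ow_er (dl_last w), hb]
  have hG : ∀ i, Le δ (δ i) (X i + C (vz w Φ i) : MvPolynomial (Fin (m + 1)) K) := fun i =>
    (Le.X i).add (Le.C _ _)
  have h1 : coeff (er s) (RR w Φ F) = coeff (er s) (pt δ β (RR w Φ F)) := by
    rw [coeff_pt, if_pos hte]
  have h2 : pt δ β (RR w Φ F) = bind₁ (fun i => pt δ (δ i)
      (X i + C (vz w Φ i) : MvPolynomial (Fin (m + 1)) K)) (pt δ β (pt w (mw w F) F)) := by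
    rw [RR, tr]
    exact pt_bind_le hQ hG
  have h3 : ∀ i, pt δ (δ i) (X i + C (vz w Φ i) : MvPolynomial (Fin (m + 1)) K) =
      X i + if i = Fin.last m then C (vz w Φ i) else 0 := by
    intro i
    rw [pt_add, pt_eq_self (Le.X i) (Ge.X i)]
    congr 1
    split_ifs with hi
    · rw [(hδ0 i).2 hi]
      exact pt_C _
    · refine pt_of_le ?_ (Le.C 0 _)
      exact Nat.pos_of_ne_zero fun h => hi ((hδ0 i).1 h)
  rw [h1, h2, ← coeff_K0 _ (er_last s), K0, bind₁_bind₁]
  have h4 : (fun i => bind₁ (fun i => if i = Fin.last m then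
      (0 : MvPolynomial (Fin (m + 1)) K) else X i) (pt δ (δ i)
        (X i + C (vz w Φ i) : MvPolynomial (Fin (m + 1)) K))) =
      fun i => if i = Fin.last m then C (vz w Φ (Fin.last m)) else X i := by
    funext i
    rw [h3, map_add, bind₁_X_right]
    split_ifs with hi
    · rw [zero_add, algHom_C, hi]
      rfl
    · rw [map_zero, add_zero]
  rw [h4, bind₁_eq_sum, coeff_sum]
  simp only [prod_er, coeff_monomial]
  have hS : ∀ t, coeff t (pt δ β (pt w (mw w F) F)) ≠ 0 → t.degree = F.totalDegree := by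
    intro t ht
    rw [coeff_pt] at ht
    split_ifs at ht with h5
    · rw [coeff_pt] at ht
      split_ifs at ht with h6
      · have h7 := ow_dl hle t
        rw [← hδ, h5, h6, add_comm, hmw] at h7
        have h8 := h1w (Fin.last m)
        exact (Nat.eq_of_mul_eq_mul_left (by omega) h7).symm
      · exact absurd rfl ht
    · exact absurd rfl ht
  have hcs : coeff s (pt δ β (pt w (mw w F) F)) = coeff s F := by
    rw [coeff_pt, if_pos hb, coeff_pt, if_pos]
    have h7 := ow_dl hle s
    rw [← hδ, hb, hs, ← hmw] at h7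
    omega
  by_cases hsup : s ∈ (pt δ β (pt w (mw w F) F)).support
  · rw [Finset.sum_eq_single s]
    · rw [if_pos rfl, hcs, mul_comm]
    · intro t ht hne
      rw [if_neg]
      intro h5
      exact hne (er_inj ((hS t (mem_support_iff.1 ht)).trans hs.symm) h5)
    · intro h5
      exact absurd hsup h5
  · have h5 : coeff s F = 0 := by
      rw [← hcs]
      exact notMem_support_iff.1 hsup
    rw [h5, mul_zero]
    refine Finset.sum_eq_zero fun t ht => ?_
    rw [if_neg]
    intro h6
    have h7 := er_inj ((hS t (mem_support_iff.1 ht)).trans hs.symm) h6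
    rw [h7] at ht
    exact hsup ht

theorem totalDegree_RR_le : (RR w Φ F).totalDegree ≤ F.totalDegree := by
  refine totalDegree_tr_le ?_
  refine Finset.sup_le fun t ht => ?_
  change t.degree ≤ _
  rw [mem_support_iff, coeff_pt] at ht
  split_ifs at ht
  · exact deg_le (mem_support_iff.2 ht)
  · exact absurd rfl ht

/-- no last variable -/
theorem coeff_zero_of_last [CharZero K] {P : MvPolynomial (Fin (m + 1)) K}
    (h : (Pi.single (Fin.last m) 1 : Fin (m + 1) → K) ∈ ker P) {t : Fin (m + 1) →₀ ℕ}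
    (ht : t (Fin.last m) ≠ 0) : coeff t P = 0 := by
  classical
  rw [mem_ker] at h
  have h2 := congrArg (coeff (t - Finsupp.single (Fin.last m) 1)) h
  rw [coeff_dv, coeff_zero, Finset.sum_eq_single (Fin.last m)] at h2
  · rw [Pi.single_eq_same, one_mul] at h2
    have h3 : t - Finsupp.single (Fin.last m) 1 + Finsupp.single (Fin.last m) 1 = t :=
      tsub_add_cancel_of_le (Finsupp.single_le_iff.2 (Nat.one_le_iff_ne_zero.2 ht))
    rw [h3] at h2
    rcases mul_eq_zero.1 h2 with h4 | h4
    · exact h4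
    · exfalso
      exact Nat.cast_add_one_ne_zero (R := K) _ h4
  · intro i _ hi
    rw [Pi.single_eq_of_ne hi, zero_mul]
  · intro h4
    exact absurd (Finset.mem_univ _) h4

section

variable [CharZero K] (h : Fac w Φ L U b)

include h

/-- the value of the last form is not zero -/
theorem Fac.z_ne : vz w Φ (Fin.last m) ≠ 0 := by
  intro h0
  have h1 : vJ w Φ (Fin.last m) (Fin.last m) = 0 := by
    rw [vJ, Matrix.of_apply, if_pos rfl, h0, mul_zero]
  rw [h.eq, Matrix.mul_apply, Finset.sum_eq_single (Fin.last m)] at h1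
  · rw [h.diag, one_mul] at h1
    exact h.U_ne h1
  · intro j _ hj
    by_cases h2 : L (Fin.last m) j = 0
    · rw [h2, zero_mul]
    · have h3 := h.low _ j (Ne.symm hj) h2
      have h4 := h.le j
      omega
  · intro h2
    exact absurd (Finset.mem_univ _) h2

/-- Two consecutive steps with constant order. -/
theorem next (hF : F ≠ 0) (heq : bt (dl w) (bind₁ Φ F) = bt (dl w) F)
    (heq2 : bt (dl w) (bind₁ Φ (bind₁ Φ F)) = bt (dl w) (bind₁ Φ F)) :
    ∃ κ : K, κ ≠ 0 ∧ su L (PP w Φ (bind₁ Φ F)) = C κ * su (vD w U) (su L (PP w Φ F)) := by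
  classical
  set G := bind₁ Φ F with hG
  set β := bt (dl w) F with hβ
  have hJne := suJ_ne h hF
  obtain ⟨hG0, -⟩ := bind_ne h.deg h.one hJne
  rw [← hG] at hG0
  have hmwG := mw_eq h hG0 heq2
  obtain ⟨-, -, -, h4⟩ := (bt_le_of h hF (ptF_le h.le)).2 heq
  rw [← hG, ← hβ] at h4
  obtain ⟨g1, g2, g3, -⟩ := (bt_le_of h hG0 (ptF_le h.le)).2 heq2
  rw [heq] at g1 g2 g3
  obtain ⟨hlow0, -⟩ := hh_eq h.deg h.one hJne
  rw [← hG] at hlow0
  set a := vz w Φ (Fin.last m) with ha
  set μ := lo (RR w Φ F) with hμ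
  set μ' := lo (RR w Φ G) with hμ'
  set W := G.totalDegree with hW
  -- comparison of coefficients
  have key : ∀ s : Fin (m + 1) →₀ ℕ, s.degree = W → ow (dl w) s = β →
      coeff (er s) (RR w Φ G) = a ^ s (Fin.last m) * coeff (er s) (hh G (ot s)) := by
    intro s hs hb
    rw [coeff_hh G (ot s) hs rfl]
    exact coeff_RR h.one h.lt h.le hmwG hs (hb.trans heq.symm)
  -- every exponent of small degree without last variable comes from some `s`
  have lift : ∀ t : Fin (m + 1) →₀ ℕ, t (Fin.last m) = 0 → t.degree ≤ W →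
      ∃ s : Fin (m + 1) →₀ ℕ, s.degree = W ∧ er s = t ∧ ot s = t.degree ∧
        s (Fin.last m) = W - t.degree := by
    intro t ht hd
    refine ⟨t + Finsupp.single (Fin.last m) (W - t.degree), ?_, ?_, ?_, ?_⟩
    · rw [map_add, Finsupp.degree_single]
      omega
    · ext i
      refine Fin.lastCases ?_ (fun k => ?_) i
      · rw [er_last, ht]
      · rw [er_castSucc, Finsupp.add_apply, Finsupp.single_eq_of_ne (Fin.castSucc_ne_last k),
          add_zero]
    · rw [ot_add, ot_single_last, add_zero]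
      have := degree_eq t
      omega
    · rw [Finsupp.add_apply, Finsupp.single_eq_same, ht, zero_add]
  -- the lowest form of `G`
  have hπ0 : su L (PP w Φ G) ≠ 0 := suL_ne h hG0
  have hnoN : ∀ t, t (Fin.last m) ≠ 0 → coeff t (su L (PP w Φ G)) = 0 := fun t ht =>
    coeff_zero_of_last (last_mem h) ht
  have hcπ : ∀ t, coeff t (su L (PP w Φ G)) ≠ 0 → t (Fin.last m) = 0 ∧ ow (dl w) t = β ∧
      t.degree = μ' ∧ coeff t (su L (PP w Φ G)) = coeff t (RR w Φ G) := by
    intro t ht
    have h5 : t (Fin.last m) = 0 := by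
      by_contra hcon
      exact ht (hnoN t hcon)
    rw [← g3, coeff_pt] at ht ⊢
    split_ifs at ht ⊢ with h6
    · rw [PP, coeff_homogeneousComponent] at ht ⊢
      split_ifs at ht ⊢ with h7
      · exact ⟨h5, h6, h7, rfl⟩
      · exact absurd rfl ht
    · exact absurd rfl ht
  have hμμ : μ' = μ := by
    refine le_antisymm ?_ ?_
    · have h5 : pt (dl w) β (hh G μ) ≠ 0 := by
        rw [h4]
        exact su_ne_zero h.det (suL_ne h hF)
      obtain ⟨t, ht⟩ := support_nonempty.2 h5
      rw [mem_support_iff, coeff_pt] at ht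
      split_ifs at ht with h6
      · obtain ⟨s, hs, hd, ho, hts⟩ := mem_hh (mem_support_iff.2 ht)
        rw [hts, ow_er (dl_last w)] at h6
        have h7 := key s hd h6
        rw [ho, ← hts] at h7
        have h8 : coeff t (RR w Φ G) ≠ 0 := by
          rw [h7]
          exact mul_ne_zero (pow_ne_zero _ h.z_ne) ht
        have h9 := lo_le (mem_support_iff.2 h8)
        rw [hts, degree_er, ho] at h9
        exact h9
      · exact absurd rfl ht
    · by_contra hcon
      push Not at hcon
      obtain ⟨t, ht⟩ := support_nonempty.2 hπ0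
      obtain ⟨h5, h6, h7, h8⟩ := hcπ t (mem_support_iff.1 ht)
      have h9 : coeff t (RR w Φ G) ≠ 0 := by
        rw [← h8]
        exact mem_support_iff.1 ht
      have h10 : t.degree ≤ W := (le_totalDegree (mem_support_iff.2 h9)).trans totalDegree_RR_le
      obtain ⟨s, hs1, hs2, hs3, hs4⟩ := lift t h5 h10
      have h11 := key s hs1 (by rw [← ow_er (dl_last w), hs2, h6])
      rw [hs2, hs3, h7, hlow0 μ' hcon, coeff_zero, mul_zero] at h11
      exact h9 h11
  refine ⟨a ^ (W - μ), pow_ne_zero _ h.z_ne, ?_⟩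
  rw [← h4]
  ext t
  rw [coeff_C_mul, coeff_pt]
  by_cases h5 : coeff t (su L (PP w Φ G)) = 0
  · rw [h5]
    split_ifs with h6
    · by_cases h7 : coeff t (hh G μ) = 0
      · rw [h7, mul_zero]
      · exfalso
        obtain ⟨s, hs, hd, ho, hts⟩ := mem_hh (mem_support_iff.2 h7)
        have h8 := key s hd (by rw [← ow_er (dl_last w), ← hts, h6])
        rw [ho, ← hts] at h8
        have h9 : coeff t (RR w Φ G) ≠ 0 := by
          rw [h8]
          exact mul_ne_zero (pow_ne_zero _ h.z_ne) h7
        rw [← g3, coeff_pt, if_pos h6, PP, coeff_homogeneousComponent, if_pos] at h5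
        · exact h9 h5
        · change t.degree = μ'
          rw [hμμ, hts, degree_er, ho]
    · rw [mul_zero]
  · obtain ⟨h6, h7, h8, h9⟩ := hcπ t h5
    have h10 : coeff t (RR w Φ G) ≠ 0 := by
      rw [← h9]
      exact h5
    have h11 : t.degree ≤ W := (le_totalDegree (mem_support_iff.2 h10)).trans totalDegree_RR_le
    obtain ⟨s, hs1, hs2, hs3, hs4⟩ := lift t h6 h11
    have h12 := key s hs1 (by rw [← ow_er (dl_last w), hs2, h7])
    rw [hs2, hs3, hs4, h8, hμμ] at h12
    rw [if_pos h7, h9, h12]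

end

end Pool.Agent.Helper26.DV
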