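import Pool.Agent.Helper26.DV.Defs
import Pool.Agent.Helper26.DV.Der
import Pool.Agent.Helper26.GT.Line

/-!
# Restriction to the lines, with an arbitrary degree vector
-/

set_option autoImplicit false

namespace Pool.Agent.Helper26.DV

open MvPolynomial Pool.Agent.Helper26.GT Pool.Agent.Helper26.RR

variable {K : Type*} [Field K] {m : ℕ}

/-- the differences to the largest degree -/
def dl (w : Fin (m + 1) → ℕ) (i : Fin (m + 1)) : ℕ := w (Fin.last m) - w i

theorem dl_last (w : Fin (m + 1) → ℕ) : dl w (Fin.last m) = 0 := by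
  unfold dl
  omega

/-- the largest weight -/
noncomputable def mw (w : Fin (m + 1) → ℕ) (F : MvPolynomial (Fin (m + 1)) K) : ℕ :=
  F.support.sup (ow w)

theorem le_mw {w : Fin (m + 1) → ℕ} {F : MvPolynomial (Fin (m + 1)) K} {s : Fin (m + 1) →₀ ℕ}
    (hs : s ∈ F.support) : ow w s ≤ mw w F := Finset.le_sup hs

theorem exists_mw (w : Fin (m + 1) → ℕ) {F : MvPolynomial (Fin (m + 1)) K} (hF : F ≠ 0) :
    ∃ s ∈ F.support, ow w s = mw w F := by
  obtain ⟨s, hs, h⟩ := Finset.exists_mem_eq_sup F.support (support_nonempty.2 hF) (ow w)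
  exact ⟨s, hs, h.symm⟩

theorem ow_dl {w : Fin (m + 1) → ℕ} (hw : ∀ i, w i ≤ w (Fin.last m)) (s : Fin (m + 1) →₀ ℕ) :
    ow (dl w) s + ow w s = w (Fin.last m) * s.degree := by
  unfold ow dl
  rw [← Finset.sum_add_distrib, Finsupp.degree_eq_sum, Finset.mul_sum]
  refine Finset.sum_congr rfl fun i _ => ?_
  rw [← mul_add, Nat.sub_add_cancel (hw i), mul_comm]

/-- the order at `(0, …, 0, 1)` of the form of highest degree, for the weights `δ` -/
noncomputable def bt (δ : Fin (m + 1) → ℕ) (F : MvPolynomial (Fin (m + 1)) K) : ℕ :=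
  sInf {n | ∃ s ∈ F.support, s.degree = F.totalDegree ∧ ow δ s = n}

theorem bt_spec (δ : Fin (m + 1) → ℕ) {F : MvPolynomial (Fin (m + 1)) K} (hF : F ≠ 0) :
    ∃ s ∈ F.support, s.degree = F.totalDegree ∧ ow δ s = bt δ F := by
  have hne : {n | ∃ s ∈ F.support, s.degree = F.totalDegree ∧ ow δ s = n}.Nonempty := by
    obtain ⟨s, hs, h⟩ := exists_top hF
    exact ⟨ow δ s, s, hs, h, rfl⟩
  exact Nat.sInf_mem hne

theorem bt_le {δ : Fin (m + 1) → ℕ} {F : MvPolynomial (Fin (m + 1)) K} {s : Fin (m + 1) →₀ ℕ}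
    (hs : s ∈ F.support) (h : s.degree = F.totalDegree) : bt δ F ≤ ow δ s :=
  Nat.sInf_le ⟨s, hs, h, rfl⟩

/-- removing the last exponent -/
noncomputable def er (s : Fin (m + 1) →₀ ℕ) : Fin (m + 1) →₀ ℕ := s.erase (Fin.last m)

theorem er_castSucc (s : Fin (m + 1) →₀ ℕ) (k : Fin m) : er s k.castSucc = s k.castSucc := by
  rw [er, Finsupp.erase_ne (Fin.castSucc_ne_last k)]

theorem er_last (s : Fin (m + 1) →₀ ℕ) : er s (Fin.last m) = 0 := by
  rw [er, Finsupp.erase_same]

theorem degree_er (s : Fin (m + 1) →₀ ℕ) : (er s).degree = ot s := by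
  rw [degree_eq, er_last, add_zero]
  exact Finset.sum_congr rfl fun k _ => er_castSucc s k

theorem ow_er {δ : Fin (m + 1) → ℕ} (hδ : δ (Fin.last m) = 0) (s : Fin (m + 1) →₀ ℕ) :
    ow δ (er s) = ow δ s := by
  unfold ow
  rw [Fin.sum_univ_castSucc, Fin.sum_univ_castSucc, hδ, mul_zero, mul_zero]
  congr 1
  exact Finset.sum_congr rfl fun k _ => by rw [er_castSucc]

theorem er_inj {s t : Fin (m + 1) →₀ ℕ} (hd : s.degree = t.degree) (h : er s = er t) : s = t := by
  have h1 : ∀ k : Fin m, s k.castSucc = t k.castSucc := fun k => by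
    rw [← er_castSucc s k, h, er_castSucc]
  have h2 : ot s = ot t := Finset.sum_congr rfl fun k _ => h1 k
  have h3 : s (Fin.last m) = t (Fin.last m) := by
    have h4 := degree_eq s
    have h5 := degree_eq t
    omega
  ext i
  exact Fin.lastCases h3 (fun k => h1 k) i

/-- the parts of the form of highest degree -/
noncomputable def hh (F : MvPolynomial (Fin (m + 1)) K) (j : ℕ) : MvPolynomial (Fin (m + 1)) K :=
  ∑ s ∈ F.support with s.degree = F.totalDegree ∧ ot s = j, monomial (er s) (coeff s F)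

theorem eval_monomial_er (s : Fin (m + 1) →₀ ℕ) (c : K) (y : Fin (m + 1) → K) :
    eval y (monomial (er s) c) = c * ∏ k : Fin m, y k.castSucc ^ s k.castSucc := by
  rw [eval_monomial, Finsupp.prod_fintype _ _ fun _ => pow_zero _, Fin.prod_univ_castSucc,
    er_last, pow_zero, mul_one]
  congr 1
  exact Finset.prod_congr rfl fun k _ => by rw [er_castSucc]

theorem eval_hh (F : MvPolynomial (Fin (m + 1)) K) (j : ℕ) (y : Fin (m + 1) → K) :
    eval y (hh F j) = ((La (fun k => y k.castSucc) F).coeff F.totalDegree).coeff j := by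
  rw [hh, map_sum, (La_top _ le_rfl).2 j]
  exact Finset.sum_congr rfl fun s _ => eval_monomial_er s _ y

theorem coeff_hh (F : MvPolynomial (Fin (m + 1)) K) (j : ℕ) {s : Fin (m + 1) →₀ ℕ}
    (hd : s.degree = F.totalDegree) (hj : ot s = j) : coeff (er s) (hh F j) = coeff s F := by
  classical
  rw [hh, coeff_sum]
  by_cases hs : s ∈ F.support
  · rw [Finset.sum_eq_single s]
    · rw [coeff_monomial, if_pos rfl]
    · intro t ht hne
      rw [Finset.mem_filter] at ht
      rw [coeff_monomial, if_neg]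
      exact fun h => hne (er_inj (ht.2.1.trans hd.symm) h)
    · intro h
      exact absurd (Finset.mem_filter.2 ⟨hs, hd, hj⟩) h
  · rw [notMem_support_iff.1 hs]
    refine Finset.sum_eq_zero fun t ht => ?_
    rw [Finset.mem_filter] at ht
    rw [coeff_monomial, if_neg]
    intro h
    have := er_inj (ht.2.1.trans hd.symm) h
    rw [this] at ht
    exact hs ht.1

theorem mem_hh {F : MvPolynomial (Fin (m + 1)) K} {j : ℕ} {t : Fin (m + 1) →₀ ℕ}
    (ht : t ∈ (hh F j).support) :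
    ∃ s ∈ F.support, s.degree = F.totalDegree ∧ ot s = j ∧ t = er s := by
  classical
  rw [mem_support_iff, hh, coeff_sum] at ht
  obtain ⟨s, hs, h⟩ := Finset.exists_ne_zero_of_sum_ne_zero ht
  rw [Finset.mem_filter] at hs
  rw [coeff_monomial] at h
  refine ⟨s, hs.1, hs.2.1, hs.2.2, ?_⟩
  by_contra hcon
  rw [if_neg (Ne.symm hcon)] at h
  exact h rfl

theorem hh_ge {δ : Fin (m + 1) → ℕ} (hδ : δ (Fin.last m) = 0)
    (F : MvPolynomial (Fin (m + 1)) K) (j : ℕ) : Ge δ (bt δ F) (hh F j) := by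
  intro t ht
  obtain ⟨s, hs, hd, -, rfl⟩ := mem_hh ht
  rw [ow_er hδ]
  exact bt_le hs hd

/-- The coefficient of the top degree of a composition. -/
theorem comp_top {w : Fin (m + 1) → ℕ} {Φ : Fin (m + 1) → MvPolynomial (Fin (m + 1)) K}
    (hdeg : ∀ i, (Φ i).totalDegree ≤ w i) (F : MvPolynomial (Fin (m + 1)) K) (v : Fin m → K) :
    (La v (bind₁ Φ F)).coeff (mw w F) =
      aeval (fun i => (La v (Φ i)).coeff (w i)) (pt w (mw w F) F) := by
  classical
  have h0 : La v (bind₁ Φ F) = aeval (fun i => La v (Φ i)) F := by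
    rw [La, aeval_bind₁]
    rfl
  have h1 := aeval_top F w (mw w F) (fun s hs => le_mw hs)
    (fun i => La v (Φ i)) (fun i => (La_top v (hdeg i)).1)
  rw [h0, h1.2, pt, map_sum]
  refine Finset.sum_congr rfl fun s _ => ?_
  rw [aeval_monomial, Finsupp.prod_fintype _ _ fun _ => pow_zero _]

theorem coeff_zero_eq {w : Fin (m + 1) → ℕ} {Φ : Fin (m + 1) → MvPolynomial (Fin (m + 1)) K}
    (hdeg : ∀ i, (Φ i).totalDegree ≤ w i) (v : Fin m → K) (i : Fin (m + 1)) :
    ((La v (Φ i)).coeff (w i)).coeff 0 = vz w Φ i := La_zero v (hdeg i)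

theorem coeff_one_eq {w : Fin (m + 1) → ℕ} (h1w : ∀ i, 1 ≤ w i)
    {Φ : Fin (m + 1) → MvPolynomial (Fin (m + 1)) K}
    (hdeg : ∀ i, (Φ i).totalDegree ≤ w i) (v : Fin m → K) (i : Fin (m + 1)) :
    ((La v (Φ i)).coeff (w i)).coeff 1 = (vJ w Φ).mulVec (Fin.snoc v 0) i := by
  rw [La_one v (h1w i) (hdeg i), Matrix.mulVec, dotProduct, Fin.sum_univ_castSucc, Fin.snoc_last,
    mul_zero, add_zero]
  refine Finset.sum_congr rfl fun k _ => ?_
  rw [Fin.snoc_castSucc, vJ, Matrix.of_apply, if_neg (Fin.castSucc_ne_last k)]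
  rfl

theorem vJ_last (w : Fin (m + 1) → ℕ) (Φ : Fin (m + 1) → MvPolynomial (Fin (m + 1)) K)
    (v : Fin m → K) (t : K) (i : Fin (m + 1)) :
    (vJ w Φ).mulVec (Fin.snoc v t) i =
      (vJ w Φ).mulVec (Fin.snoc v 0) i + t * (w i * vz w Φ i) := by
  simp only [Matrix.mulVec, dotProduct, Fin.sum_univ_castSucc, Fin.snoc_last, Fin.snoc_castSucc,
    mul_zero, add_zero]
  congr 1
  rw [vJ, Matrix.of_apply, if_pos rfl, mul_comm]

end Pool.Agent.Helper26.DV
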