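import Pool.Agent.Helper26.DV.Next

/-!
# Termination for an arbitrary degree vector whose maximum is attained once
-/

set_option autoImplicit false

namespace Pool.Agent.Helper26.DV

open MvPolynomial Pool.Agent.Helper26.GT Pool.Agent.Helper26.RR

variable {K : Type*} [Field K] {m : ℕ}
variable {w : Fin (m + 1) → ℕ} {Φ : Fin (m + 1) → MvPolynomial (Fin (m + 1)) K}
variable {L U : Matrix (Fin (m + 1)) (Fin (m + 1)) K} {b : Fin (m + 1) → K}

/-- the composition -/
noncomputable def cmp (Φ : Fin (m + 1) → MvPolynomial (Fin (m + 1)) K)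
    (F : MvPolynomial (Fin (m + 1)) K) : MvPolynomial (Fin (m + 1)) K := bind₁ Φ F

section

variable [CharZero K] (h : Fac w Φ L U b)

include h

theorem cmp_ne {F : MvPolynomial (Fin (m + 1)) K} (hF : F ≠ 0) (k : ℕ) : (cmp Φ)^[k] F ≠ 0 := by
  induction k with
  | zero => exact hF
  | succ k ih =>
    rw [Function.iterate_succ_apply']
    exact (bind_ne h.deg h.one (suJ_ne h ih)).1

theorem cmp_bt_le {F : MvPolynomial (Fin (m + 1)) K} (hF : F ≠ 0) (k : ℕ) :
    bt (dl w) ((cmp Φ)^[k] F) ≤ bt (dl w) F := by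
  induction k with
  | zero => exact le_rfl
  | succ k ih =>
    rw [Function.iterate_succ_apply']
    exact (bt_le_of h (cmp_ne h hF k) (ptF_le h.le)).1.trans ih

/-- If the order is constant, the lowest form is invariant in many directions. -/
theorem ker_of_const (k : ℕ) : ∀ F : MvPolynomial (Fin (m + 1)) K, F ≠ 0 →
    (∀ n, bt (dl w) ((cmp Φ)^[n] F) = bt (dl w) F) → ∀ E : ℕ,
      (vD w U ^ k).mulVec (fun i => if w i = E then b i else 0) ∈ ker (su L (PP w Φ F)) := by
  induction k with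
  | zero =>
    intro F hF hc E
    rw [pow_zero, Matrix.one_mulVec]
    exact level_mem h hF (hc 1) E
  | succ k ih =>
    intro F hF hc E
    have hG0 : bind₁ Φ F ≠ 0 := cmp_ne h hF 1
    have hc' : ∀ n, bt (dl w) ((cmp Φ)^[n] (bind₁ Φ F)) = bt (dl w) (bind₁ Φ F) := fun n =>
      (hc (n + 1)).trans (hc 1).symm
    obtain ⟨κ, hκ, hnext⟩ := next h hF (hc 1) (hc' 1)
    have h1 := ih _ hG0 hc' E
    rw [mem_ker, hnext, dv_C_mul, dv_su, Matrix.mulVec_mulVec, ← pow_succ'] at h1
    rcases mul_eq_zero.1 h1 with h2 | h2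
    · exact absurd (C_eq_zero.1 h2) hκ
    · rw [mem_ker]
      by_contra h3
      exact su_ne_zero h.det h3 h2

theorem drop (hspan : Submodule.span K ({Pi.single (Fin.last m) 1} ∪
      {v | ∃ k E : ℕ, v = (vD w U ^ k).mulVec (fun i => if w i = E then b i else 0)}) = ⊤)
    {F : MvPolynomial (Fin (m + 1)) K} (hF : F ≠ 0) (hb : bt (dl w) F ≠ 0) :
    ∃ k, bt (dl w) ((cmp Φ)^[k] F) < bt (dl w) F := by
  by_contra hcon
  push Not at hcon
  have heq : ∀ n, bt (dl w) ((cmp Φ)^[n] F) = bt (dl w) F := fun n =>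
    le_antisymm (cmp_bt_le h hF n) (hcon n)
  have hker : ker (su L (PP w Φ F)) = ⊤ := by
    rw [eq_top_iff, ← hspan, Submodule.span_le]
    rintro v (hv | ⟨k, E, rfl⟩)
    · rw [Set.mem_singleton_iff] at hv
      rw [hv]
      exact last_mem h
    · exact ker_of_const h k F hF heq E
  obtain ⟨-, hge, -, -⟩ := (bt_le_of h hF (ptF_le h.le)).2 (heq 1)
  obtain ⟨t, ht⟩ := support_nonempty.2 (suL_ne h hF)
  by_cases h0 : t = 0
  · have h1 := hge t ht
    rw [h0, ow_zero] at h1
    exact hb (Nat.le_zero.1 h1)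
  · exact mem_support_iff.1 ht (eq_zero_of_ker hker h0)

theorem term_aux (hspan : Submodule.span K ({Pi.single (Fin.last m) 1} ∪
      {v | ∃ k E : ℕ, v = (vD w U ^ k).mulVec (fun i => if w i = E then b i else 0)}) = ⊤)
    (n : ℕ) : ∀ F : MvPolynomial (Fin (m + 1)) K, F ≠ 0 → bt (dl w) F ≤ n →
      ∃ k, bt (dl w) ((cmp Φ)^[k] F) = 0 := by
  induction n with
  | zero =>
    intro F _ h
    exact ⟨0, Nat.le_zero.1 h⟩
  | succ n ih =>
    intro F hF hn
    by_cases hb : bt (dl w) F = 0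
    · exact ⟨0, hb⟩
    · obtain ⟨k, hk⟩ := drop h hspan hF hb
      obtain ⟨l, hl⟩ := ih _ (cmp_ne h hF k) (by omega)
      refine ⟨l + k, ?_⟩
      rw [Function.iterate_add_apply]
      exact hl

theorem coeff_of_bt_zero {F : MvPolynomial (Fin (m + 1)) K} (hF : F ≠ 0)
    (hb : bt (dl w) F = 0) : coeff (Finsupp.single (Fin.last m) F.totalDegree) F ≠ 0 := by
  obtain ⟨s, hs, hsD, hsb⟩ := bt_spec (dl w) hF
  rw [hb] at hsb
  have h1 : ot s = 0 := by
    refine Finset.sum_eq_zero fun i _ => ?_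
    have h2 := (Finset.sum_eq_zero_iff.1 hsb) i.castSucc (Finset.mem_univ _)
    rcases Nat.mul_eq_zero.1 h2 with h3 | h3
    · exact h3
    · exfalso
      have := h.lt i.castSucc (Fin.castSucc_ne_last i)
      unfold dl at h3
      omega
  rw [← hsD, ← eq_single_of_ot h1]
  exact mem_support_iff.1 hs

end

/-- **Termination.** -/
theorem term [CharZero K]
    (hw : ∀ i : Fin m, 1 ≤ w i.castSucc ∧ w i.castSucc < w (Fin.last m))
    (h1 : 1 ≤ w (Fin.last m)) (hΦ : VDom w Φ) {F : MvPolynomial (Fin (m + 1)) K} (hF : F ≠ 0) :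
    ∃ k : ℕ, coeff (Finsupp.single (Fin.last m) (((fun G => bind₁ Φ G)^[k] F).totalDegree))
      ((fun G => bind₁ Φ G)^[k] F) ≠ 0 := by
  obtain ⟨L, U, b, hJ, hdet, hdiag, hlow, hup, hvec, hspan⟩ := hΦ.lu
  have h : Fac w Φ L U b :=
    { deg := hΦ.deg
      one := fun i => Fin.lastCases h1 (fun k => (hw k).1) i
      lt := fun i => Fin.lastCases (fun h => absurd rfl h) (fun k _ => (hw k).2) i
      eq := hJ
      det := hdet
      diag := hdiag
      low := hlow
      up := hup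
      vec := hvec }
  obtain ⟨k, hk⟩ := term_aux h hspan (bt (dl w) F) F hF le_rfl
  exact ⟨k, coeff_of_bt_zero h (cmp_ne h hF k) hk⟩

end Pool.Agent.Helper26.DV
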