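import Mathlib

/-!
# Weights and linear substitutions
-/

set_option autoImplicit false

namespace Pool.Agent.Helper26.DV

open MvPolynomial

variable {K : Type*} [Field K] {n : ℕ}

/-- the weight of an exponent -/
def ow (δ : Fin n → ℕ) (t : Fin n →₀ ℕ) : ℕ := ∑ i, t i * δ i

theorem ow_add (δ : Fin n → ℕ) (s t : Fin n →₀ ℕ) : ow δ (s + t) = ow δ s + ow δ t := by
  unfold ow
  rw [← Finset.sum_add_distrib]
  exact Finset.sum_congr rfl fun i _ => by rw [Finsupp.add_apply, add_mul]

theorem ow_zero (δ : Fin n → ℕ) : ow δ 0 = 0 := by simp [ow]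

theorem ow_single (δ : Fin n → ℕ) (i : Fin n) (k : ℕ) : ow δ (Finsupp.single i k) = k * δ i := by
  classical
  unfold ow
  rw [Finset.sum_eq_single i]
  · rw [Finsupp.single_eq_same]
  · intro j _ hj
    rw [Finsupp.single_eq_of_ne hj, zero_mul]
  · intro h
    exact absurd (Finset.mem_univ _) h

/-- all weights are at most `β` -/
def Le (δ : Fin n → ℕ) (β : ℕ) (P : MvPolynomial (Fin n) K) : Prop :=
  ∀ t ∈ P.support, ow δ t ≤ β

/-- all weights are at least `β` -/
def Ge (δ : Fin n → ℕ) (β : ℕ) (P : MvPolynomial (Fin n) K) : Prop :=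
  ∀ t ∈ P.support, β ≤ ow δ t

variable {δ : Fin n → ℕ}

theorem Le.mono {β γ : ℕ} (h : β ≤ γ) {P : MvPolynomial (Fin n) K} (hP : Le δ β P) : Le δ γ P :=
  fun t ht => (hP t ht).trans h

theorem Le.zero (β : ℕ) : Le δ β (0 : MvPolynomial (Fin n) K) := by
  intro t ht
  simp at ht

theorem Ge.zero (β : ℕ) : Ge δ β (0 : MvPolynomial (Fin n) K) := by
  intro t ht
  simp at ht

theorem Le.add {β : ℕ} {P Q : MvPolynomial (Fin n) K} (hP : Le δ β P) (hQ : Le δ β Q) :
    Le δ β (P + Q) := by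
  classical
  intro t ht
  rcases Finset.mem_union.1 (support_add ht) with h | h
  · exact hP t h
  · exact hQ t h

theorem Ge.add {β : ℕ} {P Q : MvPolynomial (Fin n) K} (hP : Ge δ β P) (hQ : Ge δ β Q) :
    Ge δ β (P + Q) := by
  classical
  intro t ht
  rcases Finset.mem_union.1 (support_add ht) with h | h
  · exact hP t h
  · exact hQ t h

theorem Le.sum {ι : Type*} {β : ℕ} (s : Finset ι) {f : ι → MvPolynomial (Fin n) K}
    (h : ∀ i ∈ s, Le δ β (f i)) : Le δ β (∑ i ∈ s, f i) := by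
  classical
  induction s using Finset.induction_on with
  | empty => simpa using Le.zero β
  | insert a s ha ih =>
    rw [Finset.sum_insert ha]
    exact (h a (Finset.mem_insert_self _ _)).add
      (ih fun i hi => h i (Finset.mem_insert_of_mem hi))

theorem Ge.sum {ι : Type*} {β : ℕ} (s : Finset ι) {f : ι → MvPolynomial (Fin n) K}
    (h : ∀ i ∈ s, Ge δ β (f i)) : Ge δ β (∑ i ∈ s, f i) := by
  classical
  induction s using Finset.induction_on with
  | empty => simpa using Ge.zero β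
  | insert a s ha ih =>
    rw [Finset.sum_insert ha]
    exact (h a (Finset.mem_insert_self _ _)).add
      (ih fun i hi => h i (Finset.mem_insert_of_mem hi))

theorem Le.mul {β γ : ℕ} {P Q : MvPolynomial (Fin n) K} (hP : Le δ β P) (hQ : Le δ γ Q) :
    Le δ (β + γ) (P * Q) := by
  classical
  intro t ht
  obtain ⟨a, ha, b, hb, rfl⟩ := Finset.mem_add.1 (support_mul P Q ht)
  rw [ow_add]
  exact Nat.add_le_add (hP a ha) (hQ b hb)

theorem Ge.mul {β γ : ℕ} {P Q : MvPolynomial (Fin n) K} (hP : Ge δ β P) (hQ : Ge δ γ Q) :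
    Ge δ (β + γ) (P * Q) := by
  classical
  intro t ht
  obtain ⟨a, ha, b, hb, rfl⟩ := Finset.mem_add.1 (support_mul P Q ht)
  rw [ow_add]
  exact Nat.add_le_add (hP a ha) (hQ b hb)

theorem Le.C (β : ℕ) (a : K) : Le δ β (C a : MvPolynomial (Fin n) K) := by
  classical
  intro t ht
  rw [mem_support_iff, coeff_C] at ht
  split_ifs at ht with h
  · rw [← h, ow_zero]
    exact Nat.zero_le _
  · exact absurd rfl ht

theorem Ge.C (a : K) : Ge δ 0 (C a : MvPolynomial (Fin n) K) := fun _ _ => Nat.zero_le _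

theorem Le.X (i : Fin n) : Le δ (δ i) (X i : MvPolynomial (Fin n) K) := by
  classical
  intro t ht
  rw [support_X, Finset.mem_singleton] at ht
  rw [ht, ow_single, one_mul]

theorem Ge.X (i : Fin n) : Ge δ (δ i) (X i : MvPolynomial (Fin n) K) := by
  classical
  intro t ht
  rw [support_X, Finset.mem_singleton] at ht
  rw [ht, ow_single, one_mul]

theorem Le.pow {β : ℕ} {P : MvPolynomial (Fin n) K} (hP : Le δ β P) (k : ℕ) :
    Le δ (k * β) (P ^ k) := by
  induction k with
  | zero =>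
    rw [pow_zero, zero_mul]
    exact Le.C 0 1
  | succ k ih =>
    rw [pow_succ, add_mul, one_mul]
    exact ih.mul hP

theorem Ge.pow {β : ℕ} {P : MvPolynomial (Fin n) K} (hP : Ge δ β P) (k : ℕ) :
    Ge δ (k * β) (P ^ k) := by
  induction k with
  | zero =>
    rw [pow_zero, zero_mul]
    exact Ge.C 1
  | succ k ih =>
    rw [pow_succ, add_mul, one_mul]
    exact ih.mul hP

theorem Le.prod {ι : Type*} (s : Finset ι) {f : ι → MvPolynomial (Fin n) K} {b : ι → ℕ}
    (h : ∀ i ∈ s, Le δ (b i) (f i)) : Le δ (∑ i ∈ s, b i) (∏ i ∈ s, f i) := by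
  classical
  induction s using Finset.induction_on with
  | empty =>
    rw [Finset.sum_empty, Finset.prod_empty]
    exact Le.C 0 1
  | insert a s ha ih =>
    rw [Finset.sum_insert ha, Finset.prod_insert ha]
    exact (h a (Finset.mem_insert_self _ _)).mul
      (ih fun i hi => h i (Finset.mem_insert_of_mem hi))

theorem Ge.prod {ι : Type*} (s : Finset ι) {f : ι → MvPolynomial (Fin n) K} {b : ι → ℕ}
    (h : ∀ i ∈ s, Ge δ (b i) (f i)) : Ge δ (∑ i ∈ s, b i) (∏ i ∈ s, f i) := by
  classical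
  induction s using Finset.induction_on with
  | empty =>
    rw [Finset.sum_empty, Finset.prod_empty]
    exact Ge.C 1
  | insert a s ha ih =>
    rw [Finset.sum_insert ha, Finset.prod_insert ha]
    exact (h a (Finset.mem_insert_self _ _)).mul
      (ih fun i hi => h i (Finset.mem_insert_of_mem hi))

theorem bind₁_eq_sum (G : Fin n → MvPolynomial (Fin n) K) (P : MvPolynomial (Fin n) K) :
    bind₁ G P = ∑ s ∈ P.support, MvPolynomial.C (coeff s P) * ∏ i, G i ^ s i := by
  rw [bind₁, aeval_def, eval₂_eq']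
  rfl

/-- substitutions which do not increase the weights -/
theorem Le.bind {β : ℕ} {P : MvPolynomial (Fin n) K} (hP : Le δ β P)
    {G : Fin n → MvPolynomial (Fin n) K} (hG : ∀ i, Le δ (δ i) (G i)) : Le δ β (bind₁ G P) := by
  rw [bind₁_eq_sum]
  refine Le.sum _ fun s hs => ?_
  have h1 : Le δ (0 + ∑ i, s i * δ i) (MvPolynomial.C (coeff s P) * ∏ i, G i ^ s i) :=
    (Le.C 0 _).mul (Le.prod _ fun i _ => (hG i).pow (s i))
  rw [zero_add] at h1
  exact h1.mono (hP s hs)

/-- substitutions which do not decrease the weights -/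
theorem Ge.bind {β : ℕ} {P : MvPolynomial (Fin n) K} (hP : Ge δ β P)
    {G : Fin n → MvPolynomial (Fin n) K} (hG : ∀ i, Ge δ (δ i) (G i)) : Ge δ β (bind₁ G P) := by
  rw [bind₁_eq_sum]
  refine Ge.sum _ fun s hs => ?_
  have h1 : Ge δ (0 + ∑ i, s i * δ i) (MvPolynomial.C (coeff s P) * ∏ i, G i ^ s i) :=
    (Ge.C _).mul (Ge.prod _ fun i _ => (hG i).pow (s i))
  rw [zero_add] at h1
  exact fun t ht => (hP s hs).trans (h1 t ht)

/-- the substitution by the linear forms of a matrix -/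
noncomputable def su (M : Matrix (Fin n) (Fin n) K) (P : MvPolynomial (Fin n) K) :
    MvPolynomial (Fin n) K := bind₁ (fun i => ∑ j, MvPolynomial.C (M i j) * X j) P

theorem eval_su (M : Matrix (Fin n) (Fin n) K) (P : MvPolynomial (Fin n) K) (y : Fin n → K) :
    eval y (su M P) = eval (M.mulVec y) P := by
  have h : aeval y (bind₁ (fun i => ∑ j, MvPolynomial.C (M i j) * X j) P) =
      aeval (fun i => aeval y (∑ j, MvPolynomial.C (M i j) * X j : MvPolynomial (Fin n) K)) P :=
    aeval_bind₁ _ _ _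
  rw [su]
  change _ = eval (fun i => ∑ j, M i j * y j) P
  simpa [MvPolynomial.aeval_eq_eval] using h

theorem Le.term {β : ℕ} {M : K} {j : Fin n} (h : M ≠ 0 → δ j ≤ β) :
    Le δ β (MvPolynomial.C M * MvPolynomial.X j : MvPolynomial (Fin n) K) := by
  by_cases hM : M = 0
  · rw [hM, map_zero, zero_mul]
    exact Le.zero β
  · have := ((Le.C 0 M).mul (Le.X (δ := δ) (K := K) j))
    rw [zero_add] at this
    exact this.mono (h hM)

theorem Ge.term {β : ℕ} {M : K} {j : Fin n} (h : M ≠ 0 → β ≤ δ j) :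
    Ge δ β (MvPolynomial.C M * MvPolynomial.X j : MvPolynomial (Fin n) K) := by
  by_cases hM : M = 0
  · rw [hM, map_zero, zero_mul]
    exact Ge.zero β
  · have := ((Ge.C M).mul (Ge.X (δ := δ) (K := K) j))
    rw [zero_add] at this
    exact fun t ht => (h hM).trans (this t ht)

theorem Le.su {β : ℕ} {P : MvPolynomial (Fin n) K} (hP : Le δ β P)
    {M : Matrix (Fin n) (Fin n) K} (hM : ∀ i j, M i j ≠ 0 → δ j ≤ δ i) :
    Le δ β (DV.su M P) :=
  hP.bind fun i => Le.sum _ fun j _ => Le.term (hM i j)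

theorem Ge.su {β : ℕ} {P : MvPolynomial (Fin n) K} (hP : Ge δ β P)
    {M : Matrix (Fin n) (Fin n) K} (hM : ∀ i j, M i j ≠ 0 → δ i ≤ δ j) :
    Ge δ β (DV.su M P) :=
  hP.bind fun i => Ge.sum _ fun j _ => Ge.term (hM i j)

/-- the part of a given weight -/
noncomputable def pt (δ : Fin n → ℕ) (β : ℕ) (P : MvPolynomial (Fin n) K) :
    MvPolynomial (Fin n) K :=
  ∑ t ∈ P.support with ow δ t = β, monomial t (coeff t P)

theorem coeff_pt (δ : Fin n → ℕ) (β : ℕ) (P : MvPolynomial (Fin n) K) (t : Fin n →₀ ℕ) :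
    coeff t (pt δ β P) = if ow δ t = β then coeff t P else 0 := by
  classical
  rw [pt, coeff_sum]
  simp only [coeff_monomial]
  rw [Finset.sum_ite_eq']
  simp only [Finset.mem_filter]
  by_cases h1 : t ∈ P.support
  · by_cases h2 : ow δ t = β
    · rw [if_pos ⟨h1, h2⟩, if_pos h2]
    · rw [if_neg fun h => h2 h.2, if_neg h2]
  · rw [if_neg fun h => h1 h.1, notMem_support_iff.1 h1, ite_self]

theorem pt_eq_self {β : ℕ} {P : MvPolynomial (Fin n) K} (h1 : Le δ β P) (h2 : Ge δ β P) :
    pt δ β P = P := by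
  ext t
  rw [coeff_pt]
  split_ifs with h
  · rfl
  · by_contra hcon
    have ht : t ∈ P.support := mem_support_iff.2 (Ne.symm hcon)
    exact h (le_antisymm (h1 t ht) (h2 t ht))

theorem pt_sub_le {β : ℕ} {P : MvPolynomial (Fin n) K} (hP : Le δ β P) (hβ : 1 ≤ β) :
    Le δ (β - 1) (P - pt δ β P) := by
  intro t ht
  rw [mem_support_iff, coeff_sub, coeff_pt] at ht
  split_ifs at ht with h
  · rw [sub_self] at ht
    exact absurd rfl ht
  · rw [sub_zero] at ht
    have := hP t (mem_support_iff.2 ht)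
    omega

theorem pt_sub_ge {β : ℕ} {P : MvPolynomial (Fin n) K} (hP : Ge δ β P) :
    Ge δ (β + 1) (P - pt δ β P) := by
  intro t ht
  rw [mem_support_iff, coeff_sub, coeff_pt] at ht
  split_ifs at ht with h
  · rw [sub_self] at ht
    exact absurd rfl ht
  · rw [sub_zero] at ht
    have := hP t (mem_support_iff.2 ht)
    omega

theorem pt_add (β : ℕ) (P Q : MvPolynomial (Fin n) K) :
    pt δ β (P + Q) = pt δ β P + pt δ β Q := by
  ext t
  simp only [coeff_pt, coeff_add]
  split_ifs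
  · rfl
  · rw [add_zero]

theorem pt_of_le {β γ : ℕ} (h : γ < β) {P : MvPolynomial (Fin n) K} (hP : Le δ γ P) :
    pt δ β P = 0 := by
  ext t
  rw [coeff_pt, coeff_zero]
  split_ifs with h1
  · by_contra hcon
    have := hP t (mem_support_iff.2 hcon)
    omega
  · rfl

theorem pt_of_ge {β γ : ℕ} (h : β < γ) {P : MvPolynomial (Fin n) K} (hP : Ge δ γ P) :
    pt δ β P = 0 := by
  ext t
  rw [coeff_pt, coeff_zero]
  split_ifs with h1
  · by_contra hcon
    have := hP t (mem_support_iff.2 hcon)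
    omega
  · rfl

theorem pt_mul_le {a b : ℕ} {A B : MvPolynomial (Fin n) K} (hA : Le δ a A) (hB : Le δ b B) :
    pt δ (a + b) (A * B) = pt δ a A * pt δ b B := by
  classical
  ext t
  rw [coeff_pt, coeff_mul, coeff_mul]
  trans ∑ x ∈ Finset.HasAntidiagonal.antidiagonal t,
    if ow δ t = a + b then coeff x.1 A * coeff x.2 B else 0
  · split_ifs
    · rfl
    · rw [Finset.sum_const_zero]
  refine Finset.sum_congr rfl fun x hx => ?_
  rw [Finset.HasAntidiagonal.mem_antidiagonal] at hx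
  have ht : ow δ t = ow δ x.1 + ow δ x.2 := by rw [← hx, ow_add]
  rw [coeff_pt, coeff_pt, ht]
  by_cases h0 : coeff x.1 A = 0
  · simp [h0]
  by_cases h1 : coeff x.2 B = 0
  · simp [h1]
  have h2 := hA x.1 (mem_support_iff.2 h0)
  have h3 := hB x.2 (mem_support_iff.2 h1)
  by_cases h4 : ow δ x.1 = a
  · by_cases h5 : ow δ x.2 = b
    · rw [if_pos h4, if_pos h5, if_pos (by rw [h4, h5])]
    · rw [if_pos h4, if_neg h5, mul_zero, if_neg (by omega)]
  · rw [if_neg h4, zero_mul, if_neg (by omega)]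

theorem pt_mul_ge {a b : ℕ} {A B : MvPolynomial (Fin n) K} (hA : Ge δ a A) (hB : Ge δ b B) :
    pt δ (a + b) (A * B) = pt δ a A * pt δ b B := by
  classical
  ext t
  rw [coeff_pt, coeff_mul, coeff_mul]
  trans ∑ x ∈ Finset.HasAntidiagonal.antidiagonal t,
    if ow δ t = a + b then coeff x.1 A * coeff x.2 B else 0
  · split_ifs
    · rfl
    · rw [Finset.sum_const_zero]
  refine Finset.sum_congr rfl fun x hx => ?_
  rw [Finset.HasAntidiagonal.mem_antidiagonal] at hx
  have ht : ow δ t = ow δ x.1 + ow δ x.2 := by rw [← hx, ow_add]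
  rw [coeff_pt, coeff_pt, ht]
  by_cases h0 : coeff x.1 A = 0
  · simp [h0]
  by_cases h1 : coeff x.2 B = 0
  · simp [h1]
  have h2 := hA x.1 (mem_support_iff.2 h0)
  have h3 := hB x.2 (mem_support_iff.2 h1)
  by_cases h4 : ow δ x.1 = a
  · by_cases h5 : ow δ x.2 = b
    · rw [if_pos h4, if_pos h5, if_pos (by rw [h4, h5])]
    · rw [if_pos h4, if_neg h5, mul_zero, if_neg (by omega)]
  · rw [if_neg h4, zero_mul, if_neg (by omega)]

theorem pt_C (a : K) : pt δ 0 (C a : MvPolynomial (Fin n) K) = C a := pt_eq_self (Le.C 0 a) (Ge.C a)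

theorem pt_pow_le {a : ℕ} {A : MvPolynomial (Fin n) K} (hA : Le δ a A) (k : ℕ) :
    pt δ (k * a) (A ^ k) = pt δ a A ^ k := by
  induction k with
  | zero =>
    rw [pow_zero, pow_zero, zero_mul]
    exact pt_C 1
  | succ k ih => rw [pow_succ, pow_succ, add_mul, one_mul, pt_mul_le (hA.pow k) hA, ih]

theorem pt_pow_ge {a : ℕ} {A : MvPolynomial (Fin n) K} (hA : Ge δ a A) (k : ℕ) :
    pt δ (k * a) (A ^ k) = pt δ a A ^ k := by
  induction k with
  | zero =>
    rw [pow_zero, pow_zero, zero_mul]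
    exact pt_C 1
  | succ k ih => rw [pow_succ, pow_succ, add_mul, one_mul, pt_mul_ge (hA.pow k) hA, ih]

theorem pt_prod_le {ι : Type*} (s : Finset ι) {f : ι → MvPolynomial (Fin n) K} {b : ι → ℕ}
    (h : ∀ i ∈ s, Le δ (b i) (f i)) :
    pt δ (∑ i ∈ s, b i) (∏ i ∈ s, f i) = ∏ i ∈ s, pt δ (b i) (f i) := by
  classical
  induction s using Finset.induction_on with
  | empty =>
    rw [Finset.sum_empty, Finset.prod_empty, Finset.prod_empty]
    exact pt_C 1
  | insert a s ha ih =>
    have h1 : ∀ i ∈ s, Le δ (b i) (f i) := fun i hi => h i (Finset.mem_insert_of_mem hi)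
    rw [Finset.sum_insert ha, Finset.prod_insert ha, Finset.prod_insert ha,
      pt_mul_le (h a (Finset.mem_insert_self _ _)) (Le.prod s h1), ih h1]

theorem pt_prod_ge {ι : Type*} (s : Finset ι) {f : ι → MvPolynomial (Fin n) K} {b : ι → ℕ}
    (h : ∀ i ∈ s, Ge δ (b i) (f i)) :
    pt δ (∑ i ∈ s, b i) (∏ i ∈ s, f i) = ∏ i ∈ s, pt δ (b i) (f i) := by
  classical
  induction s using Finset.induction_on with
  | empty =>
    rw [Finset.sum_empty, Finset.prod_empty, Finset.prod_empty]
    exact pt_C 1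
  | insert a s ha ih =>
    have h1 : ∀ i ∈ s, Ge δ (b i) (f i) := fun i hi => h i (Finset.mem_insert_of_mem hi)
    rw [Finset.sum_insert ha, Finset.prod_insert ha, Finset.prod_insert ha,
      pt_mul_ge (h a (Finset.mem_insert_self _ _)) (Ge.prod s h1), ih h1]

theorem pt_zero (β : ℕ) : pt δ β (0 : MvPolynomial (Fin n) K) = 0 := by
  ext t
  rw [coeff_pt, coeff_zero, ite_self]

theorem pt_sum {ι : Type*} (β : ℕ) (s : Finset ι) (f : ι → MvPolynomial (Fin n) K) :
    pt δ β (∑ i ∈ s, f i) = ∑ i ∈ s, pt δ β (f i) := by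
  classical
  induction s using Finset.induction_on with
  | empty =>
    rw [Finset.sum_empty, Finset.sum_empty]
    exact pt_zero β
  | insert a s ha ih => rw [Finset.sum_insert ha, Finset.sum_insert ha, pt_add, ih]

theorem bind₁_pt (G : Fin n → MvPolynomial (Fin n) K) (β : ℕ) (P : MvPolynomial (Fin n) K) :
    bind₁ G (pt δ β P) =
      ∑ s ∈ P.support with ow δ s = β, MvPolynomial.C (coeff s P) * ∏ i, G i ^ s i := by
  rw [pt, map_sum]
  refine Finset.sum_congr rfl fun s _ => ?_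
  rw [bind₁_monomial]
  congr 1
  exact Finsupp.prod_fintype _ _ fun _ => pow_zero _

/-- the part of the largest weight of a substitution -/
theorem pt_bind_le {β : ℕ} {P : MvPolynomial (Fin n) K} (hP : Le δ β P)
    {G : Fin n → MvPolynomial (Fin n) K} (hG : ∀ i, Le δ (δ i) (G i)) :
    pt δ β (bind₁ G P) = bind₁ (fun i => pt δ (δ i) (G i)) (pt δ β P) := by
  rw [bind₁_pt, bind₁_eq_sum, pt_sum, Finset.sum_filter]
  refine Finset.sum_congr rfl fun s hs => ?_
  have h1 : Le δ (ow δ s) (∏ i, G i ^ s i) := Le.prod _ fun i _ => (hG i).pow (s i)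
  split_ifs with h
  · have h2 := pt_mul_le (Le.C (δ := δ) 0 (coeff s P)) h1
    rw [zero_add, h] at h2
    rw [h2, pt_C, ← h]
    congr 1
    have h3 := pt_prod_le Finset.univ (f := fun i => G i ^ s i) (b := fun i => s i * δ i)
      fun i _ => (hG i).pow (s i)
    refine h3.trans (Finset.prod_congr rfl fun i _ => ?_)
    exact pt_pow_le (hG i) (s i)
  · have h2 := (Le.C (δ := δ) 0 (coeff s P)).mul h1
    rw [zero_add] at h2
    exact pt_of_le (lt_of_le_of_ne (hP s hs) h) h2

/-- the part of the smallest weight of a substitution -/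
theorem pt_bind_ge {β : ℕ} {P : MvPolynomial (Fin n) K} (hP : Ge δ β P)
    {G : Fin n → MvPolynomial (Fin n) K} (hG : ∀ i, Ge δ (δ i) (G i)) :
    pt δ β (bind₁ G P) = bind₁ (fun i => pt δ (δ i) (G i)) (pt δ β P) := by
  rw [bind₁_pt, bind₁_eq_sum, pt_sum, Finset.sum_filter]
  refine Finset.sum_congr rfl fun s hs => ?_
  have h1 : Ge δ (ow δ s) (∏ i, G i ^ s i) := Ge.prod _ fun i _ => (hG i).pow (s i)
  split_ifs with h
  · have h2 := pt_mul_ge (Ge.C (δ := δ) (coeff s P)) h1
    rw [zero_add, h] at h2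
    rw [h2, pt_C, ← h]
    congr 1
    have h3 := pt_prod_ge Finset.univ (f := fun i => G i ^ s i) (b := fun i => s i * δ i)
      fun i _ => (hG i).pow (s i)
    refine h3.trans (Finset.prod_congr rfl fun i _ => ?_)
    exact pt_pow_ge (hG i) (s i)
  · have h2 := (Ge.C (δ := δ) (coeff s P)).mul h1
    rw [zero_add] at h2
    exact pt_of_ge (lt_of_le_of_ne (hP s hs) (Ne.symm h)) h2

/-- the block diagonal part -/
def dg (δ : Fin n → ℕ) (M : Matrix (Fin n) (Fin n) K) : Matrix (Fin n) (Fin n) K :=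
  Matrix.of fun i j => if δ i = δ j then M i j else 0

theorem pt_row (M : Matrix (Fin n) (Fin n) K) (i : Fin n) :
    pt δ (δ i) (∑ j, MvPolynomial.C (M i j) * MvPolynomial.X j : MvPolynomial (Fin n) K) =
      ∑ j, MvPolynomial.C (dg δ M i j) * MvPolynomial.X j := by
  classical
  rw [pt_sum]
  refine Finset.sum_congr rfl fun j _ => ?_
  ext t
  rw [coeff_pt, coeff_C_mul, coeff_C_mul, coeff_X, dg, Matrix.of_apply]
  by_cases h : Finsupp.single j 1 = t
  · rw [if_pos h, ← h, ow_single, one_mul]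
    by_cases h2 : δ i = δ j
    · rw [if_pos h2, if_pos h2.symm]
    · rw [if_neg h2, if_neg fun h3 => h2 h3.symm, zero_mul]
  · rw [if_neg h, mul_zero, mul_zero, ite_self]

theorem pt_su_le {β : ℕ} {P : MvPolynomial (Fin n) K} (hP : Le δ β P)
    {M : Matrix (Fin n) (Fin n) K} (hM : ∀ i j, M i j ≠ 0 → δ j ≤ δ i) :
    pt δ β (DV.su M P) = DV.su (dg δ M) (pt δ β P) := by
  rw [DV.su, pt_bind_le hP fun i => Le.sum _ fun j _ => Le.term (hM i j), DV.su]
  congr 2
  funext i
  exact pt_row M i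

theorem pt_su_ge {β : ℕ} {P : MvPolynomial (Fin n) K} (hP : Ge δ β P)
    {M : Matrix (Fin n) (Fin n) K} (hM : ∀ i j, M i j ≠ 0 → δ i ≤ δ j) :
    pt δ β (DV.su M P) = DV.su (dg δ M) (pt δ β P) := by
  rw [DV.su, pt_bind_ge hP fun i => Ge.sum _ fun j _ => Ge.term (hM i j), DV.su]
  congr 2
  funext i
  exact pt_row M i

theorem su_one (P : MvPolynomial (Fin n) K) : DV.su 1 P = P := by
  classical
  rw [DV.su]
  have h : (fun i => ∑ j, MvPolynomial.C ((1 : Matrix (Fin n) (Fin n) K) i j) *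
      MvPolynomial.X j : Fin n → MvPolynomial (Fin n) K) = MvPolynomial.X := by
    funext i
    rw [Finset.sum_eq_single i]
    · rw [Matrix.one_apply_eq, map_one, one_mul]
    · intro j _ hj
      rw [Matrix.one_apply_ne (Ne.symm hj), map_zero, zero_mul]
    · intro h
      exact absurd (Finset.mem_univ _) h
  rw [h]
  simp

theorem su_mul [Infinite K] (A B : Matrix (Fin n) (Fin n) K) (P : MvPolynomial (Fin n) K) :
    DV.su (A * B) P = DV.su B (DV.su A P) := by
  refine MvPolynomial.funext fun y => ?_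
  rw [eval_su, eval_su, eval_su, Matrix.mulVec_mulVec]

theorem su_ne_zero [Infinite K] {M : Matrix (Fin n) (Fin n) K} (hM : M.det ≠ 0)
    {P : MvPolynomial (Fin n) K} (hP : P ≠ 0) : DV.su M P ≠ 0 := by
  classical
  intro h
  refine hP ?_
  have h1 : DV.su M⁻¹ (DV.su M P) = P := by
    rw [← su_mul, Matrix.mul_nonsing_inv _ (isUnit_iff_ne_zero.2 hM), su_one]
  rw [← h1, h, DV.su, map_zero]

end Pool.Agent.Helper26.DV
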